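import Pool.Graph.R_seed8.R597.Ex7

/-!
# Transitive models with a family of class parameters: definability, recursion

`S` is the family of the sets and classes of the model `M`. The relations that are definable over
`M` with parameters from `S` are those of `Pool.Agent.W868.Dfn`.
-/

set_option autoImplicit false
set_option linter.unreachableTactic false
set_option linter.unusedTactic false
set_option linter.unusedSectionVars false
set_option linter.unusedVariables false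

namespace Pool.Agent.H635.PT

open Pool.Agent.W868 Pool.Agent.W868.GM Pool.Agent.Y588 Pool.Agent.R597 Pool.Agent.R597.Ex
open ZFSet (pair)

/-- `M` is a transitive model of ZF that satisfies the scheme of separation for formulas with
parameters from `S`. -/
structure SM0 (S M : Set ZFSet.{0}) : Prop where
  zf : IsZF M
  sub : M ⊆ S
  separation : ∀ φ : Fml ZFSet.{0} 1, φ.Over S → ∀ x ∈ M, ∃ y ∈ M, ∀ z,
    z ∈ y ↔ z ∈ x ∧ Sat M id φ ![z]

/-- `M` is a transitive model of ZF that satisfies the schemes of separation and collection for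
formulas with parameters from `S`. -/
structure SM (S M : Set ZFSet.{0}) : Prop extends SM0 S M where
  collection : ∀ φ : Fml ZFSet.{0} 2, φ.Over S → ∀ x ∈ M,
    (∀ z ∈ x, ∃ w ∈ M, Sat M id φ ![z, w]) →
      ∃ y ∈ M, ∀ z ∈ x, ∃ w ∈ y, Sat M id φ ![z, w]

section general

variable {S M : Set ZFSet.{0}} {n : ℕ}

theorem liftD (h : M ⊆ S) {R : (Fin n → ZFSet.{0}) → Prop} (hR : Dfn M M R) : Dfn S M R := by
  obtain ⟨φ, h1, h2⟩ := hR
  exact ⟨φ, h1.mono h, h2⟩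

theorem liftF (h : M ⊆ S) {F : (Fin n → ZFSet.{0}) → ZFSet.{0}} (hF : DfnF M M F) :
    DfnF S M F := ⟨hF.1, liftD h hF.2⟩

theorem specN (hMS : M ⊆ S) {m : ℕ} {R : (Fin n → ZFSet.{0}) → Prop} (h : Dfn S M R)
    (σ : Fin n → Fin m ⊕ ZFSet.{0}) (hσ : ∀ i, TOver M (σ i)) :
    Dfn S M fun w : Fin m → ZFSet.{0} => R fun i => Sum.elim w id (σ i) := by
  obtain ⟨φ, h1, h2⟩ := h
  refine ⟨φ.subst σ, over_subst _ _ (fun i => (hσ i).mono hMS) h1, fun v hv => ?_⟩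
  rw [sat_subst]
  refine h2 _ fun i => ?_
  have h3 := hσ i
  cases h4 : σ i with
  | inl k => exact hv k
  | inr a =>
    rw [h4] at h3
    exact h3 a rfl

theorem spec1 (hMS : M ⊆ S) {R : ZFSet.{0} → (Fin n → ZFSet.{0}) → Prop}
    (h : Dfn S M fun w : Fin (n + 1) → ZFSet.{0} => R (w 0) (Fin.tail w))
    {v : Fin n → ZFSet.{0}} (hv : ∀ i, v i ∈ M) :
    Dfn S M fun w : Fin 1 → ZFSet.{0} => R (w 0) v := by
  refine specN hMS h (m := 1) (Fin.cons (Sum.inl 0) fun i => Sum.inr (v i)) fun i => ?_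
  refine Fin.cases ?_ (fun i => ?_) i
  · exact TOver.inl _
  · exact tOver_inr.2 (hv i)

theorem spec2 (hMS : M ⊆ S) {R : ZFSet.{0} → ZFSet.{0} → (Fin n → ZFSet.{0}) → Prop}
    (h : Dfn S M fun w : Fin (n + 2) → ZFSet.{0} => R (w 0) (w 1) (Fin.tail (Fin.tail w)))
    {v : Fin n → ZFSet.{0}} (hv : ∀ i, v i ∈ M) :
    Dfn S M fun w : Fin 2 → ZFSet.{0} => R (w 0) (w 1) v := by
  refine specN hMS h (m := 2)
    (Fin.cons (Sum.inl 0) (Fin.cons (Sum.inl 1) fun i => Sum.inr (v i))) fun i => ?_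
  refine Fin.cases ?_ (fun i => ?_) i
  · exact TOver.inl _
  · refine Fin.cases ?_ (fun i => ?_) i
    · exact TOver.inl _
    · exact tOver_inr.2 (hv i)

theorem specF (hMS : M ⊆ S) {h : ZFSet.{0} → (Fin n → ZFSet.{0}) → ZFSet.{0}}
    (hh : DfnF S M fun w : Fin (n + 1) → ZFSet.{0} => h (w 0) (Fin.tail w))
    {v : Fin n → ZFSet.{0}} (hv : ∀ i, v i ∈ M) :
    DfnF S M fun w : Fin 1 → ZFSet.{0} => h (w 0) v := by
  refine ⟨fun w hw => hh.1 (Fin.cons (w 0) v) fun i => ?_, ?_⟩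
  · refine Fin.cases ?_ (fun i => ?_) i
    · exact hw 0
    · exact hv i
  · exact spec2 hMS (R := fun y x v => y = h x v) hh.2 hv

/-- Substitution of definable functions in a formula. -/
theorem dfn_satN : {n : ℕ} → (φ : Fml ZFSet.{0} n) → φ.Over S → {m : ℕ} →
    (G : Fin n → (Fin m → ZFSet.{0}) → ZFSet.{0}) → (∀ i, DfnF S M (G i)) →
    Dfn S M fun w : Fin m → ZFSet.{0} => Sat M id φ fun i => G i w
  | _, .mem (.inl i) (.inl j), _, _, G, hG => Dfn.mem (hG i) (hG j)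
  | _, .mem (.inl i) (.inr X), h, _, G, hG => by
    have h1 : Dfn S M fun w : Fin 1 → ZFSet.{0} => w 0 ∈ X :=
      ⟨.mem (.inl 0) (.inr X), ⟨TOver.inl _, tOver_inr.2 (h.2 X rfl)⟩, fun v _ => Iff.rfl⟩
    exact Dfn.comp1 (Q := fun x => x ∈ X) h1 (hG i)
  | _, .mem (.inr X) (.inl j), h, _, G, hG => by
    have h1 : Dfn S M fun w : Fin 1 → ZFSet.{0} => X ∈ w 0 :=
      ⟨.mem (.inr X) (.inl 0), ⟨tOver_inr.2 (h.1 X rfl), TOver.inl _⟩, fun v _ => Iff.rfl⟩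
    exact Dfn.comp1 (Q := fun x => X ∈ x) h1 (hG j)
  | _, .mem (.inr X) (.inr Y), _, _, G, hG => Dfn.prop (X ∈ Y)
  | _, .eq (.inl i) (.inl j), _, _, G, hG => Dfn.eq (hG i) (hG j)
  | _, .eq (.inl i) (.inr X), h, _, G, hG => by
    have h1 : Dfn S M fun w : Fin 1 → ZFSet.{0} => w 0 = X :=
      ⟨.eq (.inl 0) (.inr X), ⟨TOver.inl _, tOver_inr.2 (h.2 X rfl)⟩, fun v _ => Iff.rfl⟩
    exact Dfn.comp1 (Q := fun x => x = X) h1 (hG i)
  | _, .eq (.inr X) (.inl j), h, _, G, hG => by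
    have h1 : Dfn S M fun w : Fin 1 → ZFSet.{0} => X = w 0 :=
      ⟨.eq (.inr X) (.inl 0), ⟨tOver_inr.2 (h.1 X rfl), TOver.inl _⟩, fun v _ => Iff.rfl⟩
    exact Dfn.comp1 (Q := fun x => X = x) h1 (hG j)
  | _, .eq (.inr X) (.inr Y), _, _, G, hG => Dfn.prop (X = Y)
  | _, .neg φ, h, _, G, hG => (dfn_satN φ h G hG).not
  | _, .and φ ψ, h, _, G, hG => (dfn_satN φ h.1 G hG).and (dfn_satN ψ h.2 G hG)
  | n, .ex φ, h, m, G, hG => by
    have h1 : Dfn S M fun w : Fin m → ZFSet.{0} => ∃ a ∈ M,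
        Sat M id φ (Fin.cons a fun i => G i w) := by
      apply Dfn.ex
      refine (dfn_satN φ h (m := m + 1) (Fin.cons (fun w => w 0) fun i w => G i (Fin.tail w))
        (by
          intro i
          refine Fin.cases ?_ (fun i => ?_) i
          · exact DfnF.proj 0
          · exact (hG i).tail)).congr fun w _ => ?_
      have h3 : (fun i => (Fin.cons (fun w => w 0) (fun i w => G i (Fin.tail w)) :
          Fin (n + 1) → (Fin (m + 1) → ZFSet.{0}) → ZFSet.{0}) i w) =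
          Fin.cons (w 0) fun i => G i (Fin.tail w) := by
        funext i
        refine Fin.cases ?_ (fun i => ?_) i
        · rfl
        · rfl
      rw [h3]
    exact h1

/-- Substitution of definable functions. -/
theorem dfn_subN {m : ℕ} {R : (Fin n → ZFSet.{0}) → Prop} (hR : Dfn S M R)
    (G : Fin n → (Fin m → ZFSet.{0}) → ZFSet.{0}) (hG : ∀ i, DfnF S M (G i)) :
    Dfn S M fun w => R fun i => G i w := by
  obtain ⟨φ, h1, h2⟩ := hR
  exact (dfn_satN φ h1 G hG).congr fun w hw => h2 _ fun i => (hG i).1 w hw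

theorem dfn_fin {m : ℕ} : ∀ {n : ℕ}
    (R : Fin n → (Fin m → ZFSet.{0}) → Prop), (∀ i, Dfn S M (R i)) →
    Dfn S M fun v => ∀ i, R i v := by
  intro n
  induction n with
  | zero => exact fun R _ => Dfn.tt.congr fun v _ => ⟨fun _ i => i.elim0, fun _ => trivial⟩
  | succ n ih =>
    intro R hR
    exact ((hR 0).and (ih (fun i => R i.succ) fun i => hR i.succ)).congr fun v _ =>
      (Fin.forall_fin_succ (P := fun i => R i v)).symm

end general

namespace SM0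

variable {S M : Set ZFSet.{0}} (hM : SM0 S M) {n : ℕ} {F G : (Fin n → ZFSet.{0}) → ZFSet.{0}}

include hM

theorem lift {R : (Fin n → ZFSet.{0}) → Prop} (hR : Dfn M M R) : Dfn S M R := liftD hM.sub hR

theorem liftF (hF : DfnF M M F) : DfnF S M F := PT.liftF hM.sub hF

theorem const {a : ZFSet.{0}} (ha : a ∈ M) : DfnF S M fun _ : Fin n → ZFSet.{0} => a :=
  DfnF.const' ha (hM.sub ha)

theorem sep_mem {Q : ZFSet.{0} → Prop} (h : Dfn S M fun w : Fin 1 → ZFSet.{0} => Q (w 0))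
    {x : ZFSet.{0}} (hx : x ∈ M) : ZFSet.sep Q x ∈ M := by
  obtain ⟨φ, h1, h2⟩ := h
  obtain ⟨y, hy, h3⟩ := hM.separation φ h1 x hx
  have h4 : y = ZFSet.sep Q x := by
    ext z
    rw [h3, ZFSet.mem_sep]
    refine and_congr_right fun hz => h2 ![z] fun i => ?_
    fin_cases i
    exact hM.zf.trans _ hx z hz
  exact h4 ▸ hy

theorem sep' (hF : DfnF S M F) {Q : ZFSet.{0} → (Fin n → ZFSet.{0}) → Prop}
    (hQ : Dfn S M fun w : Fin (n + 1) → ZFSet.{0} => Q (w 0) (Fin.tail w)) :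
    DfnF S M fun v => ZFSet.sep (fun p => Q p v) (F v) := by
  have hB := hM.zf.base
  refine DfnF.of_unique (R := fun y v => (∀ z ∈ y, z ∈ F v ∧ Q z v) ∧
    ∀ z ∈ F v, Q z v → z ∈ y) ?_ ?_
  · apply Dfn.and
    · apply hB.ball (DfnF.proj _)
      exact (Dfn.mem (DfnF.proj _) hF.tail.tail).and
        (hQ.comp (Fin.cons 0 fun i => i.succ.succ))
    · apply hB.ball hF.tail
      apply Dfn.imp (hQ.comp (Fin.cons 0 fun i => i.succ.succ))
      exact Dfn.mem (DfnF.proj 0) (DfnF.proj 1)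
  · intro v hv
    refine ⟨hM.sep_mem (Q := fun p => Q p v) (spec1 hM.sub hQ hv) (hF.1 v hv), fun y hy => ?_⟩
    constructor
    · rintro ⟨h1, h2⟩
      ext z
      rw [ZFSet.mem_sep]
      exact ⟨h1 z, fun h => h2 z h.1 h.2⟩
    · rintro rfl
      exact ⟨fun z hz => ZFSet.mem_sep.1 hz, fun z h h' => ZFSet.mem_sep.2 ⟨h, h'⟩⟩

theorem fs' (hF : DfnF S M F) : DfnF S M fun v => fs (F v) :=
  DfnF.comp1 (f := fs) (hM.liftF (hM.zf.fs' (DfnF.proj 0))) hF

theorem sn' (hF : DfnF S M F) : DfnF S M fun v => sn (F v) :=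
  DfnF.comp1 (f := sn) (hM.liftF (hM.zf.sn' (DfnF.proj 0))) hF

theorem lo' {Q : ZFSet.{0} → (Fin n → ZFSet.{0}) → Prop}
    (hQ : Dfn S M fun w : Fin (n + 1) → ZFSet.{0} => Q (w 0) (Fin.tail w)) :
    DfnF S M fun v => lo M fun ζ => Q ζ v := by
  have hB := hM.zf.base
  have h0 := hM.zf.empty_mem
  refine DfnF.of_unique (R := fun y v => (y.IsOrdinal ∧ Q y v ∧ ∀ ζ ∈ y, ¬ Q ζ v) ∨
    (y = ∅ ∧ ¬ ∃ ζ ∈ M, ζ.IsOrdinal ∧ Q ζ v)) ?_ ?_
  · have h1 : Dfn S M fun w : Fin (n + 2) → ZFSet.{0} => Q (w 0) (Fin.tail (Fin.tail w)) :=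
      hQ.comp (Fin.cons 0 fun i => i.succ.succ)
    apply Dfn.or
    · apply Dfn.and (hB.isOrdinal' (DfnF.proj 0))
      apply Dfn.and hQ
      exact hB.ball (DfnF.proj 0) h1.not
    · apply Dfn.and (Dfn.eq (DfnF.proj 0) (hM.const h0))
      apply Dfn.not
      apply Dfn.ex
      exact (hB.isOrdinal' (DfnF.proj 0)).and h1
  · intro v hv
    by_cases h : ∃ ζ ∈ M, ζ.IsOrdinal ∧ Q ζ v
    · obtain ⟨h1, h2, h3⟩ := lo_spec h
      refine ⟨h1, fun y hy => ?_⟩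
      constructor
      · rintro (⟨h4, h5, h6⟩ | ⟨-, h4⟩)
        · rcases h4.mem_trichotomous h2 with h7 | h7 | h7
          · exact absurd h7 (lo_min hy h4 h5)
          · exact h7
          · exact absurd h3 (h6 _ h7)
        · exact absurd h h4
      · rintro rfl
        exact Or.inl ⟨h2, h3, fun ζ hζ h4 => lo_min (hM.zf.trans _ h1 _ hζ) (h2.mem hζ) h4 hζ⟩
    · rw [lo_none h]
      refine ⟨h0, fun y hy => ?_⟩
      constructor
      · rintro (⟨h4, h5, h6⟩ | ⟨h4, -⟩)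
        · exact absurd ⟨y, hy, h4, h5⟩ h
        · exact h4
      · rintro rfl
        exact Or.inr ⟨rfl, h⟩

theorem wt' {Q : ZFSet.{0} → (Fin n → ZFSet.{0}) → Prop}
    (hQ : Dfn S M fun w : Fin (n + 1) → ZFSet.{0} => Q (w 0) (Fin.tail w)) :
    DfnF S M fun v => wt M fun w => Q w v := by
  have hB := hM.zf.base
  refine hM.sep' (Q := Q) ?_ hQ
  refine DfnF.comp1 (f := Vh M) (hM.liftF (dfn_Vh hM.zf)) ?_
  have h1 : DfnF S M fun v : Fin n → ZFSet.{0} => lo M fun ξ => ∃ w ∈ M, rk w = ξ ∧ Q w v := by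
    refine hM.lo' (Q := fun ξ v => ∃ w ∈ M, rk w = ξ ∧ Q w v) ?_
    apply Dfn.ex
    apply Dfn.and
    · exact Dfn.eq (DfnF.comp1 (f := rk) (hM.liftF (dfn_rk hM.zf)) (DfnF.proj 0)) (DfnF.proj 1)
    · exact hQ.comp (Fin.cons 0 fun i => i.succ.succ)
  exact DfnF.comp1 (f := sc) (hM.liftF (hM.zf.base.insert' (DfnF.proj 0) (DfnF.proj 0))) h1

end SM0

namespace SM

variable {S M : Set ZFSet.{0}} (hM : SM S M) {n : ℕ} {F G : (Fin n → ZFSet.{0}) → ZFSet.{0}}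

include hM

theorem coll {Q : ZFSet.{0} → ZFSet.{0} → Prop}
    (h : Dfn S M fun w : Fin 2 → ZFSet.{0} => Q (w 0) (w 1)) {x : ZFSet.{0}} (hx : x ∈ M)
    (h' : ∀ z ∈ x, ∃ w ∈ M, Q z w) : ∃ y ∈ M, ∀ z ∈ x, ∃ w ∈ y, Q z w := by
  obtain ⟨φ, h1, h2⟩ := h
  have h3 : ∀ z ∈ x, ∀ w ∈ M, (Sat M id φ ![z, w] ↔ Q z w) := fun z hz w hw =>
    h2 ![z, w] fun i => by
      fin_cases i
      · exact hM.zf.trans _ hx z hz
      · exact hw
  obtain ⟨y, hy, h4⟩ := hM.collection φ h1 x hx fun z hz => by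
    obtain ⟨w, hw, h5⟩ := h' z hz
    exact ⟨w, hw, (h3 z hz w hw).2 h5⟩
  refine ⟨y, hy, fun z hz => ?_⟩
  obtain ⟨w, hw, h5⟩ := h4 z hz
  exact ⟨w, hw, (h3 z hz w (hM.zf.trans _ hy w hw)).1 h5⟩

theorem im_mem {h : ZFSet.{0} → ZFSet.{0}} {x : ZFSet.{0}} (hx : x ∈ M)
    (hh : DfnF S M fun w : Fin 1 → ZFSet.{0} => h (w 0)) : im h x ∈ M := by
  have h1 : Dfn S M fun w : Fin 2 → ZFSet.{0} => w 1 = h (w 0) :=
    hh.2.comp ![1, 0]
  obtain ⟨y, hy, h2⟩ := hM.coll (Q := fun z w => w = h z) h1 hx fun z hz =>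
    ⟨h z, hh.1 (fun _ => z) fun _ => hM.zf.trans _ hx z hz, rfl⟩
  have h3 : im h x = ZFSet.sep (fun w => ∃ z ∈ x, w = h z) y := by
    ext w
    rw [mem_im, ZFSet.mem_sep]
    constructor
    · rintro ⟨z, hz, rfl⟩
      obtain ⟨w, hw, h4⟩ := h2 z hz
      exact ⟨h4 ▸ hw, z, hz, rfl⟩
    · exact fun h4 => h4.2
  rw [h3]
  refine hM.sep_mem (Q := fun w => ∃ z ∈ x, w = h z) ?_ hy
  apply hM.zf.base.bex (hM.const hx)
  exact Dfn.comp2 (Q := fun z w => w = h z) h1 (DfnF.proj 0) (DfnF.proj 1)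

theorem im' (hF : DfnF S M F) {h : ZFSet.{0} → (Fin n → ZFSet.{0}) → ZFSet.{0}}
    (hh : DfnF S M fun w : Fin (n + 1) → ZFSet.{0} => h (w 0) (Fin.tail w)) :
    DfnF S M fun v => im (fun p => h p v) (F v) := by
  have hB := hM.zf.base
  refine DfnF.of_unique (R := fun y v => (∀ z ∈ y, ∃ p ∈ F v, z = h p v) ∧
    ∀ p ∈ F v, ∃ z ∈ y, z = h p v) ?_ ?_
  · apply Dfn.and
    · apply hB.ball (DfnF.proj _)
      apply hB.bex hF.tail.tail
      refine Dfn.eq (DfnF.proj 1) ?_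
      exact ⟨fun v hv => hh.1 (Fin.cons (v 0) (Fin.tail (Fin.tail (Fin.tail v)))) fun i => by
          refine Fin.cases ?_ (fun i => ?_) i
          · exact hv 0
          · exact hv _,
        hh.2.comp (Fin.cons 0 (Fin.cons 1 fun i => i.succ.succ.succ.succ))⟩
    · apply hB.ball hF.tail
      apply hB.bex (DfnF.proj _)
      refine Dfn.eq (DfnF.proj 0) ?_
      exact ⟨fun v hv => hh.1 (Fin.cons (v 1) (Fin.tail (Fin.tail (Fin.tail v)))) fun i => by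
          refine Fin.cases ?_ (fun i => ?_) i
          · exact hv 1
          · exact hv _,
        hh.2.comp (Fin.cons 0 (Fin.cons 2 fun i => i.succ.succ.succ.succ))⟩
  · intro v hv
    refine ⟨hM.im_mem (hF.1 v hv) (specF hM.sub hh hv), fun y hy => ?_⟩
    constructor
    · rintro ⟨h1, h2⟩
      ext z
      rw [mem_im]
      constructor
      · exact h1 z
      · rintro ⟨p, hp, rfl⟩
        obtain ⟨z, hz, hz'⟩ := h2 p hp
        exact hz' ▸ hz
    · rintro rfl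
      exact ⟨fun z hz => mem_im.1 hz, fun p hp => ⟨_, mem_im.2 ⟨p, hp, rfl⟩, rfl⟩⟩

end SM

/-! ### Recursion -/

section recursion

variable {S M : Set ZFSet.{0}} (hM : SM S M) {pr F : ZFSet.{0} → ZFSet.{0}}
  {G : ZFSet.{0} → ZFSet.{0} → ZFSet.{0}}

include hM

theorem dfn_approx (hpr : DfnF S M fun w : Fin 1 → ZFSet.{0} => pr (w 0))
    (hG : DfnF S M fun w : Fin 2 → ZFSet.{0} => G (w 0) (w 1)) :
    Dfn S M fun w : Fin 1 → ZFSet.{0} => Approx M pr G (w 0) := by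
  have hB := hM.zf.base
  unfold Approx
  (repeat' first
      | assumption
      | exact DfnF.proj _
      | apply Dfn.not | apply Dfn.and | apply Dfn.or | apply Dfn.imp | apply Dfn.iff
      | apply hB.bex | apply hB.ball | apply Dfn.ex | apply Dfn.all
      | apply Dfn.eq | apply Dfn.mem | apply hB.pair'
      | exact DfnF.comp1 (f := pr) hpr (DfnF.proj _)
      | exact DfnF.comp2 (f := G) hG (DfnF.proj _) (DfnF.proj _))

theorem rec_aux (hwf : WellFounded fun u z => u ∈ pr z)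
    (hpr : DfnF S M fun w : Fin 1 → ZFSet.{0} => pr (w 0))
    (hG : DfnF S M fun w : Fin 2 → ZFSet.{0} => G (w 0) (w 1))
    (hF : ∀ z, F z = G z (gr F (pr z))) (z : ZFSet.{0}) (hz : z ∈ M) :
    rcl pr hwf F z ∈ M ∧ Approx M pr G (rcl pr hwf F z) := by
  have hB := hM.zf.base
  have hZ := hM.zf
  induction z using hwf.induction with
  | _ z ih =>
  have hpz : pr z ∈ M := hpr.1 (fun _ => z) fun _ => hz
  have ih1 : ∀ u ∈ pr z, rcl pr hwf F u ∈ M ∧ Approx M pr G (rcl pr hwf F u) := fun u hu =>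
    ih u hu (hZ.trans _ hpz _ hu)
  -- the family of these sets is in M
  have hd : Dfn S M fun w : Fin 2 → ZFSet.{0} => Approx M pr G (w 1) ∧
      (∃ y ∈ M, pair (w 0) y ∈ w 1) ∧ ∀ k ∈ M, Approx M pr G k → (∃ y ∈ M, pair (w 0) y ∈ k) →
        w 1 ⊆ k := by
    have ha := dfn_approx hM hpr hG
    apply Dfn.and
    · exact Dfn.comp1 (Q := Approx M pr G) ha (DfnF.proj 1)
    apply Dfn.and
    · (repeat' first
      | exact DfnF.proj _
      | apply Dfn.ex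
      | apply Dfn.mem | apply hB.pair')
    apply Dfn.all
    apply Dfn.imp
    · exact Dfn.comp1 (Q := Approx M pr G) ha (DfnF.proj 0)
    (repeat' first
      | exact DfnF.proj _
      | apply Dfn.imp
      | apply Dfn.ex | apply hB.subset'
      | apply Dfn.mem | apply hB.pair')
  have key : ∀ u ∈ pr z, ∀ w ∈ M, (Approx M pr G w ∧
      (∃ y ∈ M, pair u y ∈ w) ∧ ∀ k ∈ M, Approx M pr G k → (∃ y ∈ M, pair u y ∈ k) →
        w ⊆ k) ↔ w = rcl pr hwf F u := by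
    intro u hu w hw
    have huM := hZ.trans _ hpz _ hu
    obtain ⟨h1, h2⟩ := ih1 u hu
    have hFu : ∃ y ∈ M, pair u y ∈ rcl pr hwf F u :=
      ⟨F u, (hZ.of_pair_mem (hZ.trans _ h1 _ (rcl_self u))).2, rcl_self u⟩
    constructor
    · rintro ⟨h3, ⟨y, -, h4⟩, h5⟩
      apply ZFSet.ext
      intro p
      exact ⟨fun hp => h5 _ h1 h2 hFu hp, fun hp => rcl_min hwf hF h3 u ⟨y, h4⟩ hp⟩
    · rintro rfl
      exact ⟨h2, hFu, fun k _ hk ⟨y, _, hy⟩ => rcl_min hwf hF hk u ⟨y, hy⟩⟩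
  obtain ⟨T, hT, hT'⟩ := hM.coll (Q := fun u w => Approx M pr G w ∧
      (∃ y ∈ M, pair u y ∈ w) ∧ ∀ k ∈ M, Approx M pr G k → (∃ y ∈ M, pair u y ∈ k) →
        w ⊆ k) hd hpz (fun u hu => ⟨rcl pr hwf F u, (ih1 u hu).1,
          (key u hu _ (ih1 u hu).1).2 rfl⟩)
  have hT1 : ∀ u ∈ pr z, rcl pr hwf F u ∈ T := by
    intro u hu
    obtain ⟨w, hw, h1⟩ := hT' u hu
    rw [← (key u hu w (hZ.trans _ hT _ hw)).1 h1]
    exact hw
  have hS1 : im (rcl pr hwf F) (pr z) ∈ M := by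
    have h1 : im (rcl pr hwf F) (pr z) = ZFSet.sep (fun w => ∃ u ∈ pr z, (Approx M pr G w ∧
      (∃ y ∈ M, pair u y ∈ w) ∧ ∀ k ∈ M, Approx M pr G k → (∃ y ∈ M, pair u y ∈ k) →
        w ⊆ k)) T := by
      ext w
      rw [mem_im, ZFSet.mem_sep]
      constructor
      · rintro ⟨u, hu, rfl⟩
        exact ⟨hT1 u hu, u, hu, (key u hu _ (ih1 u hu).1).2 rfl⟩
      · rintro ⟨hw, u, hu, h⟩
        exact ⟨u, hu, (key u hu w (hZ.trans _ hT _ hw)).1 h⟩
    rw [h1]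
    refine hM.sep_mem (Q := fun w => ∃ u ∈ pr z, (Approx M pr G w ∧
      (∃ y ∈ M, pair u y ∈ w) ∧ ∀ k ∈ M, Approx M pr G k → (∃ y ∈ M, pair u y ∈ k) →
        w ⊆ k)) ?_ hT
    apply hB.bex (hM.const hpz)
    exact Dfn.comp2 (Q := fun u w => Approx M pr G w ∧
      (∃ y ∈ M, pair u y ∈ w) ∧ ∀ k ∈ M, Approx M pr G k → (∃ y ∈ M, pair u y ∈ k) →
        w ⊆ k) hd (DfnF.proj 0) (DfnF.proj 1)
  have hU : ZFSet.sUnion (im (rcl pr hwf F) (pr z)) ∈ M := hZ.union _ hS1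
  have hd2 : Dfn S M fun w : Fin 1 → ZFSet.{0} => ∃ u ∈ pr z, ∃ y ∈ M, w 0 = pair u y := by
    apply hB.bex (hM.const hpz)
    apply Dfn.ex
    exact Dfn.eq (DfnF.proj 2) (hB.pair' (DfnF.proj 1) (DfnF.proj 0))
  have hgr : gr F (pr z) ∈ M := by
    have h1 := hM.sep_mem (Q := fun p => ∃ u ∈ pr z, ∃ y ∈ M, p = pair u y) hd2 hU
    have h2 : ZFSet.sep (fun p => ∃ u ∈ pr z, ∃ y ∈ M, p = pair u y)
        (ZFSet.sUnion (im (rcl pr hwf F) (pr z))) = gr F (pr z) := by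
      ext p
      rw [ZFSet.mem_sep, mem_gr, ZFSet.mem_sUnion]
      constructor
      · rintro ⟨⟨w, hw, hp⟩, u, hu, y, -, rfl⟩
        rw [mem_im] at hw
        obtain ⟨u', hu', rfl⟩ := hw
        obtain ⟨u'', h3⟩ := rcl_form hwf _ _ hp
        obtain ⟨rfl, rfl⟩ := ZFSet.pair_inj.1 h3
        exact ⟨u, hu, rfl⟩
      · rintro ⟨u, hu, rfl⟩
        have h3 := (hZ.of_pair_mem (hZ.trans _ (ih1 u hu).1 _ (rcl_self u))).2
        exact ⟨⟨rcl pr hwf F u, mem_im.2 ⟨u, hu, rfl⟩, rcl_self u⟩, u, hu, F u, h3, rfl⟩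
    exact h2 ▸ h1
  have hFz : F z ∈ M := by
    rw [hF]
    exact hG.1 ![z, gr F (pr z)] (by intro i; fin_cases i; exacts [hz, hgr])
  have hcl : rcl pr hwf F z ∈ M := by
    rw [rcl_eq]
    exact hZ.insert_mem (hZ.pair_mem hz hFz) hU
  refine ⟨hcl, fun p hp => ?_⟩
  rcases mem_rcl.1 hp with rfl | ⟨u, hu, hp'⟩
  · refine ⟨z, hz, F z, hFz, rfl, gr F (pr z), hgr, ?_, ?_, hF z⟩
    · intro q hq
      obtain ⟨u, hu, rfl⟩ := mem_gr.1 hq
      have h3 := (hZ.of_pair_mem (hZ.trans _ (ih1 u hu).1 _ (rcl_self u))).2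
      exact ⟨mem_rcl.2 (Or.inr ⟨u, hu, rcl_self u⟩), u, hu, F u, h3, rfl⟩
    · intro u hu
      have h3 := (hZ.of_pair_mem (hZ.trans _ (ih1 u hu).1 _ (rcl_self u))).2
      exact ⟨F u, h3, mem_gr.2 ⟨u, hu, rfl⟩⟩
  · obtain ⟨u', hu', y', hy', h1, g, hg, h2, h3⟩ := (ih1 u hu).2 p hp'
    exact ⟨u', hu', y', hy', h1, g, hg, fun q hq =>
      ⟨mem_rcl.2 (Or.inr ⟨u, hu, (h2 q hq).1⟩), (h2 q hq).2⟩, h3⟩

/-- The recursion theorem. -/
theorem SM.wfrec (hwf : WellFounded fun u z => u ∈ pr z)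
    (hpr : DfnF S M fun w : Fin 1 → ZFSet.{0} => pr (w 0))
    (hG : DfnF S M fun w : Fin 2 → ZFSet.{0} => G (w 0) (w 1))
    (hF : ∀ z, F z = G z (gr F (pr z))) : DfnF S M fun w : Fin 1 → ZFSet.{0} => F (w 0) := by
  have hB := hM.zf.base
  have ha := dfn_approx hM hpr hG
  refine DfnF.of_unique (R := fun y v => ∃ k ∈ M, Approx M pr G k ∧ pair (v 0) y ∈ k) ?_ ?_
  · apply Dfn.ex
    apply Dfn.and
    · exact Dfn.comp1 (Q := Approx M pr G) ha (DfnF.proj 0)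
    · (repeat' first
      | exact DfnF.proj _
      | apply Dfn.mem | apply hB.pair')
  · intro v hv
    obtain ⟨h1, h2⟩ := rec_aux hM hwf hpr hG hF (v 0) (hv 0)
    refine ⟨(hM.zf.of_pair_mem (hM.zf.trans _ h1 _ (rcl_self _))).2, fun y _ => ?_⟩
    constructor
    · rintro ⟨k, -, h3, h4⟩
      exact (approx_eq hwf hF h3 _ _ h4).1
    · rintro rfl
      exact ⟨_, h1, h2, rcl_self _⟩

/-- Recursion along the membership relation. -/
theorem SM.memrec (hG : DfnF S M fun w : Fin 2 → ZFSet.{0} => G (w 0) (w 1))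
    (hF : ∀ z, F z = G z (gr F z)) : DfnF S M fun w : Fin 1 → ZFSet.{0} => F (w 0) :=
  SM.wfrec hM (pr := fun z => z) ZFSet.mem_wf (DfnF.proj 0) hG hF

end recursion

end Pool.Agent.H635.PT
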