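import Pool.Agent.H635.PT.Lab

/-!
# Class forcings that preserve separation satisfy the forcing theorem
-/

set_option autoImplicit false
set_option linter.unreachableTactic false
set_option linter.unusedTactic false
set_option linter.unusedSectionVars false
set_option linter.unusedVariables false

namespace Pool.Agent.H635.PT

open Pool.Agent.W868 Pool.Agent.W868.GM Pool.Agent.Y588 Pool.Agent.R597 Pool.Agent.R597.Ex
open ZFSet (pair)

/-! ### Names of pairs -/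

/-- The name of the unordered pair. -/
noncomputable def upn (t a b : ZFSet.{0}) : ZFSet.{0} := {pair a t, pair b t}

/-- The name of the ordered pair. -/
noncomputable def opn (t a b : ZFSet.{0}) : ZFSet.{0} := upn t (upn t a a) (upn t a b)

theorem ev_upn {G t : ZFSet.{0}} (ht : t ∈ G) (a b : ZFSet.{0}) :
    ev G (upn t a b) = {ev G a, ev G b} := by
  ext z
  rw [mem_ev, ZFSet.mem_pair]
  constructor
  · rintro ⟨y, q, h1, h2, rfl⟩
    rw [upn, ZFSet.mem_pair] at h1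
    rcases h1 with h1 | h1
    · rw [(ZFSet.pair_inj.1 h1).1]
      exact Or.inl rfl
    · rw [(ZFSet.pair_inj.1 h1).1]
      exact Or.inr rfl
  · rintro (rfl | rfl)
    · exact ⟨a, t, by rw [upn, ZFSet.mem_pair]; exact Or.inl rfl, ht, rfl⟩
    · exact ⟨b, t, by rw [upn, ZFSet.mem_pair]; exact Or.inr rfl, ht, rfl⟩

theorem ev_opn {G t : ZFSet.{0}} (ht : t ∈ G) (a b : ZFSet.{0}) :
    ev G (opn t a b) = pair (ev G a) (ev G b) := by
  rw [opn, ev_upn ht, ev_upn ht, ev_upn ht, pair, ZFSet.pair_eq_singleton]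

theorem isName_upn {P t a b : ZFSet.{0}} (ht : t ∈ P) (ha : IsName P a) (hb : IsName P b) :
    IsName P (upn t a b) := by
  refine IsName.mk _ (fun z hz => ?_) fun y p hyp => ?_
  · rw [upn, ZFSet.mem_pair] at hz
    rcases hz with rfl | rfl
    · exact ⟨_, t, ht, rfl⟩
    · exact ⟨_, t, ht, rfl⟩
  · rw [upn, ZFSet.mem_pair] at hyp
    rcases hyp with h1 | h1
    · rw [(ZFSet.pair_inj.1 h1).1]
      exact ha
    · rw [(ZFSet.pair_inj.1 h1).1]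
      exact hb

theorem isName_opn {P t a b : ZFSet.{0}} (ht : t ∈ P) (ha : IsName P a) (hb : IsName P b) :
    IsName P (opn t a b) := isName_upn ht (isName_upn ht ha ha) (isName_upn ht ha hb)

/-! ### Definability in a transitive class -/

section

variable {S N : Set ZFSet.{0}} (hN : ∀ x ∈ N, ∀ y ∈ x, y ∈ N)

include hN

theorem dfn_up : Dfn S N fun w : Fin 3 → ZFSet.{0} => w 0 = ({w 1, w 2} : ZFSet.{0}) := by
  have h1 : Dfn S N fun w : Fin 3 → ZFSet.{0} => w 1 ∈ w 0 ∧ w 2 ∈ w 0 ∧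
      ∀ x ∈ N, x ∈ w 0 → x = w 1 ∨ x = w 2 := by
    refine (Dfn.mem (DfnF.proj 1) (DfnF.proj 0)).and
      ((Dfn.mem (DfnF.proj 2) (DfnF.proj 0)).and ?_)
    apply Dfn.all
    refine Dfn.imp (Dfn.mem (DfnF.proj 0) (DfnF.proj 1)) ?_
    exact (Dfn.eq (DfnF.proj 0) (DfnF.proj 2)).or (Dfn.eq (DfnF.proj 0) (DfnF.proj 3))
  refine h1.congr fun v hv => ?_
  constructor
  · rintro ⟨h2, h3, h4⟩
    ext z
    rw [ZFSet.mem_pair]
    exact ⟨fun hz => h4 z (hN _ (hv 0) _ hz) hz, fun hz => hz.elim (fun h => h ▸ h2)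
      (fun h => h ▸ h3)⟩
  · intro h2
    have h3 : ∀ z, z ∈ v 0 ↔ z = v 1 ∨ z = v 2 := by
      intro z
      rw [h2, ZFSet.mem_pair]
    exact ⟨(h3 _).2 (Or.inl rfl), (h3 _).2 (Or.inr rfl), fun x _ hx => (h3 x).1 hx⟩

theorem dfn_pr : Dfn S N fun w : Fin 3 → ZFSet.{0} => w 0 = pair (w 1) (w 2) := by
  have h1 : Dfn S N fun w : Fin 3 → ZFSet.{0} => ∃ s ∈ N, ∃ t ∈ N,
      s = ({w 1, w 1} : ZFSet.{0}) ∧ t = ({w 1, w 2} : ZFSet.{0}) ∧
        w 0 = ({s, t} : ZFSet.{0}) := by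
    apply Dfn.ex
    apply Dfn.ex
    refine Dfn.and ?_ (Dfn.and ?_ ?_)
    · exact (dfn_up hN).comp ![1, 3, 3]
    · exact (dfn_up hN).comp ![0, 3, 4]
    · exact (dfn_up hN).comp ![2, 1, 0]
  refine h1.congr fun v hv => ?_
  constructor
  · rintro ⟨s, -, t, -, rfl, rfl, h2⟩
    rw [h2, ZFSet.pair_eq_singleton]
    rfl
  · intro h2
    have h3 : ({v 1} : ZFSet.{0}) ∈ v 0 := by
      rw [h2]
      simp [pair]
    have h4 : ({v 1, v 2} : ZFSet.{0}) ∈ v 0 := by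
      rw [h2]
      simp [pair]
    refine ⟨{v 1}, hN _ (hv 0) _ h3, {v 1, v 2}, hN _ (hv 0) _ h4, ?_, rfl, h2⟩
    rw [ZFSet.pair_eq_singleton]

end

/-- The class forcing preserves the scheme of separation: it holds in all generic extensions, for
formulas with parameters that are sets or classes of the extension. -/
def PreservesSeparation (M C P Le : ZFSet.{0}) : Prop :=
  ∀ G, IsGen C P Le G → ∀ φ : Fml ZFSet.{0} 1, φ.Over {Γ | Γ ∈ C ∧ IsName P Γ} →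
    ∀ x ∈ Mext M P G, ∃ y ∈ Mext M P G, ∀ z,
      z ∈ y ↔ z ∈ x ∧ Sat (Mext M P G) (ev G) φ ![z]

theorem mext_trans {M P G : ZFSet.{0}} (hM : ∀ x ∈ M, ∀ y ∈ x, y ∈ M)
    (hM' : ∀ y p, pair y p ∈ M → y ∈ M) : ∀ x ∈ Mext M P G, ∀ y ∈ x, y ∈ Mext M P G := by
  rintro x ⟨σ, hσ, hn, rfl⟩ y hy
  obtain ⟨τ, r, h1, h2, rfl⟩ := mem_ev.1 hy
  cases hn with
  | mk _ h3 h4 => exact ⟨τ, hM' _ _ (hM _ hσ _ h1), h4 _ _ h1, rfl⟩

/-- Class forcings that preserve separation are pretame. -/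
theorem pretame_of_sep {M C P Le W : ZFSet.{0}} (h : CX M C P Le) (hW : WO M C W)
    (hS : PreservesSeparation M C P Le) : Pretame M C P Le := by
  by_contra hno
  have h1 : ∃ p I D, NP M C P Le W D I p := by
    unfold Pretame at hno
    push Not at hno
    obtain ⟨p, hp, I, hI, D, hD, hd, h2⟩ := hno
    refine ⟨p, I, D, h, hW, hD, hI, hp, hd, ?_⟩
    rintro q hq hqp ⟨d, hdM, hdD, h3⟩
    obtain ⟨i, hi, r, hr, hrq, h4⟩ := h2 q hq hqp d hdM hdD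
    obtain ⟨x, hx, h5, s, hs, h6, h7⟩ := h3 i hi r hr hrq
    exact h4 x hx h5 s hs h6 h7
  obtain ⟨p, I, D, H⟩ := h1
  have hp := H.hp
  have hB := h.zf.base
  have hpM : p ∈ {x | x ∈ M} := h.subM hp
  have hIM : I ∈ {x | x ∈ M} := H.hI
  obtain ⟨G, hG, hpG⟩ := h.gen hp
  -- the class name
  set Γ := ZFSet.sep (fun z => ∃ i ∈ {x | x ∈ M}, ∃ x ∈ {x | x ∈ M}, ∃ r ∈ {x | x ∈ M},
    ∃ d ∈ {x | x ∈ M}, z = pair (opn p (chk p i) x) r ∧ i ∈ I ∧ IsName P x ∧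
      EE {x | x ∈ M} Le W D i r d ∧ Lb {x | x ∈ M} Le W D I p i d x) M with hΓ
  have hΓC : Γ ∈ C := by
    refine h.cmp (Q := fun z => ∃ i ∈ {x | x ∈ M}, ∃ x ∈ {x | x ∈ M}, ∃ r ∈ {x | x ∈ M},
      ∃ d ∈ {x | x ∈ M}, z = pair (opn p (chk p i) x) r ∧ i ∈ I ∧ IsName P x ∧
      EE {x | x ∈ M} Le W D i r d ∧ Lb {x | x ∈ M} Le W D I p i d x) ?_
    apply Dfn.ex
    apply Dfn.ex
    apply Dfn.ex
    apply Dfn.ex
    -- the variables are `d, r, x, i, z`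
    apply Dfn.and
    · have hck : DfnF {X | X ∈ C} {x | x ∈ M} fun w : Fin 5 → ZFSet.{0} => chk p (w 3) :=
        DfnF.comp1 (f := chk p) (h.sm.liftF (dfn_chk h.zf hpM)) (DfnF.proj 3)
      have hup : ∀ {F G : (Fin 5 → ZFSet.{0}) → ZFSet.{0}},
          DfnF {X | X ∈ C} {x | x ∈ M} F → DfnF {X | X ∈ C} {x | x ∈ M} G →
          DfnF {X | X ∈ C} {x | x ∈ M} fun v => upn p (F v) (G v) := fun hF hG =>
        DfnF.comp2 (f := fun a b => ({a, b} : ZFSet.{0})) hB.dfn_upair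
          (hB.pair' hF (h.sm.const hpM)) (hB.pair' hG (h.sm.const hpM))
      exact Dfn.eq (DfnF.proj 4) (hB.pair' (hup (hup hck hck) (hup hck (DfnF.proj 2)))
        (DfnF.proj 1))
    apply Dfn.and
    · exact Dfn.mem (DfnF.proj 3) (h.sm.const hIM)
    apply Dfn.and
    · exact Dfn.comp1 (Q := fun x => IsName P x) h.dN (DfnF.proj 2)
    apply Dfn.and
    · exact EE' h hW H.hD (DfnF.proj 3) (DfnF.proj 1) (DfnF.proj 0)
    · exact Lb' h hW H.hD H.hI hp (DfnF.proj 3) (DfnF.proj 0) (DfnF.proj 2)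
  have hΓn : IsName P Γ := by
    refine IsName.mk _ (fun z hz => ?_) fun y q hyq => ?_
    · obtain ⟨-, i, hi, x, hx, r, hr, d, hd, h2, h3, h4, h5, h6⟩ := ZFSet.mem_sep.1 hz
      exact ⟨_, r, (h.leP h5.2.1).1, h2⟩
    · obtain ⟨-, i, hi, x, hx, r, hr, d, hd, h2, h3, h4, h5, h6⟩ := ZFSet.mem_sep.1 hyq
      rw [(ZFSet.pair_inj.1 h2).1]
      exact isName_opn hp (isName_chk_of hp i) h4
  -- the value of the class name
  have hev : ∀ i y, pair i y ∈ ev G Γ → ∃ x d r, r ∈ G ∧ i ∈ I ∧ y = ev G x ∧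
      EE {x | x ∈ M} Le W D i r d ∧ Lb {x | x ∈ M} Le W D I p i d x := by
    intro i y hiy
    obtain ⟨z, r, h2, hr, h3⟩ := mem_ev.1 hiy
    obtain ⟨-, i', hi', x, hx, r', hr', d, hd, h4, h5, h6, h7, h8⟩ := ZFSet.mem_sep.1 h2
    obtain ⟨rfl, rfl⟩ := ZFSet.pair_inj.1 h4
    rw [ev_opn hpG, ev_chk hpG] at h3
    obtain ⟨rfl, rfl⟩ := ZFSet.pair_inj.1 h3
    exact ⟨x, d, r, hr, h5, rfl, h7, h8⟩
  set N := Mext M P G with hNdef
  have hNt : ∀ x ∈ N, ∀ y ∈ x, y ∈ N :=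
    mext_trans h.zf.trans fun y p hyp => (h.zf.of_pair_mem hyp).1
  -- the formula
  have hd : Dfn {ev G Γ} N fun w : Fin 1 → ZFSet.{0} => ∃ y ∈ N, ∃ z ∈ N, z ∈ ev G Γ ∧
      z = pair (w 0) y ∧ w 0 ∉ y := by
    apply Dfn.ex
    apply Dfn.ex
    refine Dfn.and ?_ (Dfn.and ?_ ?_)
    · exact ⟨.mem (.inl 0) (.inr (ev G Γ)), ⟨TOver.inl _, tOver_inr.2 rfl⟩, fun v _ => Iff.rfl⟩
    · exact (dfn_pr hNt).comp ![0, 2, 1]
    · exact (Dfn.mem (DfnF.proj 2) (DfnF.proj 1)).not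
  obtain ⟨φ, hφ1, hφ2⟩ := hd
  obtain ⟨Dg, hDg, hDg'⟩ := hS G hG (φ.map fun _ => Γ) ((over_map _ φ).2 (by
    refine Fml.Over.mono (S := {ev G Γ}) ?_ hφ1
    intro x _
    exact ⟨hΓC, hΓn⟩)) I ⟨chk p I, chk_mem h.zf hpM hIM, isName_chk_of hp I, (ev_chk hpG I).symm⟩
  have hIN : ∀ i ∈ I, i ∈ N := fun i hi => ⟨chk p i, chk_mem h.zf hpM (h.zf.trans _ hIM _ hi),
    isName_chk_of hp i, (ev_chk hpG i).symm⟩
  have hsat : ∀ i ∈ I, (Sat (Mext M P G) (ev G) (φ.map fun _ => Γ) ![i] ↔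
      ∃ y ∈ N, ∃ z ∈ N, z ∈ ev G Γ ∧ z = pair i y ∧ i ∉ y) := by
    intro i hi
    rw [sat_map]
    have h2 := sat_congr N (S := {ev G Γ}) (i := ev G ∘ fun _ => Γ) (j := id)
      (fun a ha => by
        rw [Set.mem_singleton_iff] at ha
        rw [ha]
        rfl) φ hφ1 ![i]
    rw [h2]
    exact hφ2 ![i] fun k => by
      fin_cases k
      exact hIN i hi
  obtain ⟨τ, hτ, hτn, rfl⟩ := hDg
  -- the index of the set
  obtain ⟨r, hr, i, hi, hiI, d, hd, h2, h3⟩ := h.meet hG (Q := fun r => ∃ i ∈ {x | x ∈ M},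
      i ∈ I ∧ ∃ d ∈ {x | x ∈ M}, EE {x | x ∈ M} Le W D i r d ∧
        Lb {x | x ∈ M} Le W D I p i d τ) (by
    have hτ' : τ ∈ {x | x ∈ M} := hτ
    apply Dfn.ex
    apply Dfn.and
    · exact Dfn.mem (DfnF.proj 0) (h.sm.const hIM)
    apply Dfn.ex
    apply Dfn.and
    · exact EE' h hW H.hD (DfnF.proj 1) (DfnF.proj 2) (DfnF.proj 0)
    · exact Lb' h hW H.hD H.hI hp (DfnF.proj 1) (DfnF.proj 0) (h.sm.const hτ')) hpG (by
    intro q hq hqp
    obtain ⟨r, hr, i, hi, d, hd, h2, h3⟩ := exists_label H hqp hτ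
    exact ⟨r, (h.leP hr).1, hr, i, h.zf.trans _ hIM _ hi, hi, d, hd, h2, h3⟩)
  have hmem : pair i (ev G τ) ∈ ev G Γ := by
    refine mem_ev.2 ⟨opn p (chk p i) τ, r, ZFSet.mem_sep.2 ⟨?_, i, hi, τ, hτ, r,
      h.subM (hG.sub hr), d, hd, rfl, hiI, hτn, h2, h3⟩, hr, ?_⟩
    · have hck : chk p i ∈ {x | x ∈ M} := chk_mem h.zf hpM hi
      have hup : ∀ {a b : ZFSet.{0}}, a ∈ {x | x ∈ M} → b ∈ {x | x ∈ M} →
          upn p a b ∈ {x | x ∈ M} := fun ha hb =>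
        h.zf.pairing _ (h.zf.pair_mem ha hpM) _ (h.zf.pair_mem hb hpM)
      exact h.zf.pair_mem (hup (hup hck hck) (hup hck hτ)) (h.subM (hG.sub hr))
    · rw [ev_opn hpG, ev_chk hpG]
  have huniq : ∀ y, pair i y ∈ ev G Γ → y = ev G τ := by
    intro y hy
    obtain ⟨x, d', r', hr', -, rfl, h4, h5⟩ := hev i y hy
    obtain ⟨t, ht, h6, h7⟩ := h.two hG hr hr'
    have h8 := EE_unique h hW H.hD hi h2 h4 ⟨t, h6, h7⟩
    subst h8
    rw [Lb_unique H h3 h5]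
  have hτN : ev G τ ∈ N := ⟨τ, hτ, hτn, rfl⟩
  have key : i ∈ ev G τ ↔ i ∉ ev G τ := by
    rw [hDg' i, hsat i hiI]
    constructor
    · rintro ⟨-, y, hy, z, hz, h4, rfl, h5⟩ ⟨-, h6⟩
      rw [huniq y h4] at h5
      exact h5 ((hDg' i).2 ⟨hiI, (hsat i hiI).2 h6⟩)
    · intro h4
      refine ⟨hiI, ev G τ, hτN, pair i (ev G τ), ?_, hmem, rfl, fun h5 => h4 ?_⟩
      · -- the pair is an element of the extension
        exact ⟨opn p (chk p i) τ, by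
          have hck : chk p i ∈ {x | x ∈ M} := chk_mem h.zf hpM hi
          have hup : ∀ {a b : ZFSet.{0}}, a ∈ {x | x ∈ M} → b ∈ {x | x ∈ M} →
              upn p a b ∈ {x | x ∈ M} := fun ha hb =>
            h.zf.pairing _ (h.zf.pair_mem ha hpM) _ (h.zf.pair_mem hb hpM)
          exact hup (hup hck hck) (hup hck hτ), isName_opn hp (isName_chk_of hp i) hτn, by
          rw [ev_opn hpG, ev_chk hpG]⟩
      · have h6 := (hDg' i).1 h5
        exact ⟨hiI, (hsat i hiI).1 h6.2⟩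
  exact (not_iff_self key.symm)

/-- Class forcings that preserve separation satisfy the forcing theorem. -/
theorem forcingThm_of_sep {M C P Le W : ZFSet.{0}} (h : CX M C P Le) (hW : WO M C W)
    (hS : PreservesSeparation M C P Le) : ForcingThm M C P Le :=
  forcingThm_of_pretame h (pretame_of_sep h hW hS)

end Pool.Agent.H635.PT
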