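import Pool.Agent.H635.PT.Fin

/-!
# Transitive models of `GBC`: the definition, separation and collection
-/

set_option autoImplicit false
set_option linter.unreachableTactic false
set_option linter.unusedTactic false
set_option linter.unusedSectionVars false
set_option linter.unusedVariables false

namespace Pool.Agent.H635.PT

open Pool.Agent.W868 Pool.Agent.W868.GM Pool.Agent.Y588 Pool.Agent.R597
open ZFSet (pair)

/-- `(M, C)` is a transitive model of `GBC`. The elements of `M` are the sets of the model and the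
elements of `C` are its classes: `M` is transitive, the classes are subsets of `M`, all sets are
classes, and the axioms of pairing, union, infinity and power set hold, as well as replacement
(the image of a set under a class function is a set), first order class comprehension (the
formulas have parameters from `C`, that is, sets and classes, and their quantifiers range over
`M`), and there is a class `W` that is a strict well-order of `M`: a strict linear order such that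
all nonempty classes have a least element. Extensionality and foundation hold for sets and for
classes as the membership relation of the model is the real one. -/
structure IsGBC (M C : ZFSet.{0}) : Prop where
  trans : ∀ x ∈ M, ∀ y ∈ x, y ∈ M
  classes : ∀ X ∈ C, X ⊆ M
  sets : ∀ x ∈ M, x ∈ C
  pairing : ∀ x ∈ M, ∀ y ∈ M, ({x, y} : ZFSet.{0}) ∈ M
  union : ∀ x ∈ M, ZFSet.sUnion x ∈ M
  infinity : ZFSet.omega ∈ M
  power : ∀ x ∈ M, ∃ y ∈ M, ∀ z, z ∈ y ↔ z ∈ M ∧ z ⊆ x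
  replacement : ∀ F ∈ C, (∀ a b b', pair a b ∈ F → pair a b' ∈ F → b = b') →
    ∀ x ∈ M, ∃ y ∈ M, ∀ b, b ∈ y ↔ ∃ a ∈ x, pair a b ∈ F
  comprehension : ∀ φ : Fml ZFSet.{0} 1, φ.Over {X | X ∈ C} → ∃ X ∈ C, ∀ z,
    z ∈ X ↔ z ∈ M ∧ Sat {x | x ∈ M} id φ ![z]
  wellorder : ∃ W, WO M C W

section

variable {M C : ZFSet.{0}} (h : IsGBC M C)

include h

theorem IsGBC.base : IsBase {x | x ∈ M} := ⟨h.trans, h.pairing, h.union⟩

/-- Comprehension for definable properties. -/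
theorem IsGBC.cmp {Q : ZFSet.{0} → Prop} (hQ : Dfn {X | X ∈ C} {x | x ∈ M}
    fun w : Fin 1 → ZFSet.{0} => Q (w 0)) : ZFSet.sep Q M ∈ C := by
  obtain ⟨φ, h1, h2⟩ := hQ
  obtain ⟨X, hX, h3⟩ := h.comprehension φ h1
  have h4 : X = ZFSet.sep Q M := by
    ext z
    rw [h3, ZFSet.mem_sep]
    refine and_congr_right fun hz => h2 ![z] fun i => ?_
    fin_cases i
    exact hz
  exact h4 ▸ hX

/-- Replacement for definable relations. -/
theorem IsGBC.repl {R : ZFSet.{0} → ZFSet.{0} → Prop}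
    (hR : Dfn {X | X ∈ C} {x | x ∈ M} fun w : Fin 2 → ZFSet.{0} => R (w 0) (w 1))
    (hf : ∀ a ∈ M, ∀ b ∈ M, ∀ b' ∈ M, R a b → R a b' → b = b') {x : ZFSet.{0}} (hx : x ∈ M) :
    ∃ y ∈ M, ∀ b, b ∈ y ↔ b ∈ M ∧ ∃ a ∈ x, R a b := by
  have hB := h.base
  have h1 := h.cmp (Q := fun u => ∃ a ∈ {x | x ∈ M}, ∃ b ∈ {x | x ∈ M}, u = pair a b ∧ R a b) (by
    apply Dfn.ex
    apply Dfn.ex
    apply Dfn.and
    · exact Dfn.eq (DfnF.proj 2) (hB.pair' (DfnF.proj 1) (DfnF.proj 0))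
    · exact Dfn.comp2 (Q := R) hR (DfnF.proj 1) (DfnF.proj 0))
  obtain ⟨y, hy, h2⟩ := h.replacement _ h1 (by
    intro a b b' h3 h4
    obtain ⟨-, a₁, ha₁, b₁, hb₁, h5, h6⟩ := ZFSet.mem_sep.1 h3
    obtain ⟨-, a₂, ha₂, b₂, hb₂, h7, h8⟩ := ZFSet.mem_sep.1 h4
    obtain ⟨rfl, rfl⟩ := ZFSet.pair_inj.1 h5
    obtain ⟨rfl, rfl⟩ := ZFSet.pair_inj.1 h7
    exact hf _ ha₁ _ hb₁ _ hb₂ h6 h8) x hx
  refine ⟨y, hy, fun b => ?_⟩
  rw [h2]
  constructor
  · rintro ⟨a, ha, h3⟩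
    obtain ⟨-, a₁, ha₁, b₁, hb₁, h5, h6⟩ := ZFSet.mem_sep.1 h3
    obtain ⟨rfl, rfl⟩ := ZFSet.pair_inj.1 h5
    exact ⟨hb₁, a, ha, h6⟩
  · rintro ⟨hb, a, ha, h3⟩
    have haM := h.trans _ hx _ ha
    have hpM : pair a b ∈ {x | x ∈ M} := by
      have h4 := h.pairing _ (h.pairing _ haM _ haM) _ (h.pairing _ haM _ hb)
      rwa [ZFSet.pair_eq_singleton] at h4
    exact ⟨a, ha, ZFSet.mem_sep.2 ⟨hpM, a, haM, b, hb, rfl, h3⟩⟩

theorem IsGBC.separation {Q : ZFSet.{0} → Prop} (hQ : Dfn {X | X ∈ C} {x | x ∈ M}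
    fun w : Fin 1 → ZFSet.{0} => Q (w 0)) {x : ZFSet.{0}} (hx : x ∈ M) :
    ∃ y ∈ M, ∀ z, z ∈ y ↔ z ∈ x ∧ Q z := by
  obtain ⟨y, hy, h1⟩ := h.repl (R := fun a b => a = b ∧ Q a) (by
    apply Dfn.and
    · exact Dfn.eq (DfnF.proj 0) (DfnF.proj 1)
    · exact Dfn.comp1 (Q := Q) hQ (DfnF.proj 0)) (by
    rintro a - b - b' - ⟨rfl, -⟩ ⟨rfl, -⟩
    rfl) hx
  refine ⟨y, hy, fun z => ?_⟩
  rw [h1]
  constructor
  · rintro ⟨-, a, ha, rfl, h2⟩
    exact ⟨ha, h2⟩
  · rintro ⟨hz, h2⟩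
    exact ⟨h.trans _ hx _ hz, z, hz, rfl, h2⟩

theorem IsGBC.zf : IsZF {x | x ∈ M} where
  trans := h.trans
  pairing := h.pairing
  union := h.union
  infinity := h.infinity
  power := h.power
  separation φ hφ x hx := by
    have hφ' : φ.Over {X | X ∈ C} := Fml.Over.mono (fun y hy => h.sets y hy) hφ
    exact h.separation (Q := fun z => Sat {x | x ∈ M} id φ ![z])
      ⟨φ, hφ', fun v _ => by show _ ↔ Sat {x | x ∈ M} id φ ![v 0]; rw [← vec1]⟩ hx
  replacement φ hφ x hx hu := by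
    have hφ' : φ.Over {X | X ∈ C} := Fml.Over.mono (fun y hy => h.sets y hy) hφ
    have hxC : x ∈ {X | X ∈ C} := h.sets x hx
    have hv : ∀ v : Fin 2 → ZFSet.{0}, v = ![v 0, v 1] := fun v => by
      funext i
      fin_cases i <;> rfl
    obtain ⟨y, hy, h1⟩ := h.repl (R := fun z w => z ∈ x ∧ Sat {x | x ∈ M} id φ ![z, w]) (by
      apply Dfn.and
      · exact Dfn.mem (DfnF.proj 0) (DfnF.const' hx hxC)
      · exact ⟨φ, hφ', fun v _ => by show _ ↔ Sat {x | x ∈ M} id φ ![v 0, v 1]; rw [← hv v]⟩) (by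
      rintro a - b hb b' hb' ⟨ha, h1⟩ ⟨-, h2⟩
      obtain ⟨c, -, h3⟩ := hu a ha
      rw [h3 b ⟨hb, h1⟩, h3 b' ⟨hb', h2⟩]) hx
    refine ⟨y, hy, fun w => ?_⟩
    rw [h1]
    constructor
    · rintro ⟨hw, z, hz, -, h2⟩
      exact ⟨hw, z, hz, h2⟩
    · rintro ⟨hw, z, hz, h2⟩
      exact ⟨hw, z, hz, hz, h2⟩

theorem IsGBC.sm0 : SM0 {X | X ∈ C} {x | x ∈ M} where
  zf := h.zf
  sub := h.sets
  separation φ hφ x hx := h.separation (Q := fun z => Sat {x | x ∈ M} id φ ![z])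
      ⟨φ, hφ, fun v _ => by show _ ↔ Sat {x | x ∈ M} id φ ![v 0]; rw [← vec1]⟩ hx

theorem IsGBC.sm : SM {X | X ∈ C} {x | x ∈ M} where
  toSM0 := h.sm0
  collection φ hφ x hx hc := by
    have h0 := h.sm0
    have hv : ∀ v : Fin 2 → ZFSet.{0}, v = ![v 0, v 1] := fun v => by
      funext i
      fin_cases i <;> rfl
    have hd : Dfn {X | X ∈ C} {x | x ∈ M} fun w : Fin 2 → ZFSet.{0} =>
        Sat {x | x ∈ M} id φ ![w 0, w 1] := ⟨φ, hφ, fun v _ => by show _ ↔ Sat {x | x ∈ M} id φ ![v 0, v 1]; rw [← hv v]⟩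
    have hw : DfnF {X | X ∈ C} {x | x ∈ M} fun v : Fin 1 → ZFSet.{0} =>
        wt {x | x ∈ M} fun w => Sat {x | x ∈ M} id φ ![v 0, w] := by
      refine h0.wt' (Q := fun w v => Sat {x | x ∈ M} id φ ![v 0, w]) ?_
      exact hd.comp ![1, 0]
    obtain ⟨y, hy, h1⟩ := h.repl (R := fun z w => w = wt {x | x ∈ M}
        fun w => Sat {x | x ∈ M} id φ ![z, w]) (hw.2.comp ![1, 0]) (by
      rintro a - b - b' - rfl rfl
      rfl) hx
    refine ⟨ZFSet.sUnion y, h.union _ hy, fun z hz => ?_⟩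
    obtain ⟨w, hw'⟩ := wt_ne h.zf (hc z hz)
    have hzM := h.trans _ hx _ hz
    refine ⟨w, ZFSet.mem_sUnion.2 ⟨_, (h1 _).2 ⟨hw.1 (fun _ => z) fun _ => hzM, z, hz, rfl⟩,
      hw'⟩, (wt_spec hw').2⟩

/-- The assumptions of the other files. -/
theorem IsGBC.cx (hc : {X | X ∈ C}.Countable) {P Le : ZFSet.{0}} (hP : IsClassForcing C P Le) :
    CX M C P Le where
  sm := h.sm
  cls hX := h.classes _ hX
  cmp := h.cmp
  ctbl := hc
  cf := hP

end

/-- Class forcings that preserve separation satisfy the forcing theorem. -/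
theorem main {M C P Le : ZFSet.{0}} (hc : {X | X ∈ C}.Countable) (h : IsGBC M C)
    (hP : IsClassForcing C P Le) (hS : PreservesSeparation M C P Le) : ForcingThm M C P Le := by
  obtain ⟨W, hW⟩ := h.wellorder
  exact forcingThm_of_sep (h.cx hc hP) hW hS

end Pool.Agent.H635.PT
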