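import Pool.Agent.H635.PT.SP

/-!
# The labels
-/

set_option autoImplicit false
set_option linter.unreachableTactic false
set_option linter.unusedTactic false
set_option linter.unusedSectionVars false
set_option linter.unusedVariables false

namespace Pool.Agent.H635.PT

open Pool.Agent.W868 Pool.Agent.W868.GM Pool.Agent.Y588 Pool.Agent.R597
open ZFSet (pair)

/-- The pair `u` of a condition and a set is not yet served. -/
def uq (K : Set ZFSet.{0}) (Le p y u : ZFSet.{0}) : Prop :=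
  ∃ q ∈ K, ∃ x ∈ K, u = pair q x ∧ pair q p ∈ Le ∧ ∀ v ∈ y, sn v ≠ u

/-- The next pair of a condition and a set. -/
noncomputable def prc (K : Set ZFSet.{0}) (Le W p y : ZFSet.{0}) : ZFSet.{0} :=
  pk W (wt K fun u => uq K Le p y u)

/-- The pair `u` of an index and a condition can be used for `q`. -/
def ui (K : Set ZFSet.{0}) (Le W D I q y u : ZFSet.{0}) : Prop :=
  ∃ i ∈ K, ∃ d ∈ K, u = pair i d ∧ i ∈ I ∧ Bad K Le D i q ∧
    (∃ r ∈ K, pair r q ∈ Le ∧ EE K Le W D i r d) ∧ ∀ v ∈ y, fs v ≠ u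

/-- The pair of an index and a condition that is used next. -/
noncomputable def itc (K : Set ZFSet.{0}) (Le W D I p y : ZFSet.{0}) : ZFSet.{0} :=
  pk W (wt K fun u => ui K Le W D I (fs (prc K Le W p y)) y u)

/-- The step of the recursion. -/
noncomputable def stp (K : Set ZFSet.{0}) (Le W D I p y : ZFSet.{0}) : ZFSet.{0} :=
  pair (itc K Le W D I p y) (prc K Le W p y)

/-- The enumeration. -/
noncomputable def FF (K : Set ZFSet.{0}) (Le W D I p : ZFSet.{0}) : ZFSet.{0} → ZFSet.{0} :=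
  wfF (fun z => z) ZFSet.mem_wf fun _ g => stp K Le W D I p (im sn g)

theorem FF_eq (K : Set ZFSet.{0}) (Le W D I p z : ZFSet.{0}) :
    FF K Le W D I p z = stp K Le W D I p (im (FF K Le W D I p) z) := by
  have h1 : FF K Le W D I p z = stp K Le W D I p (im sn (gr (FF K Le W D I p) z)) :=
    wfF_eq _ _ _ _
  rw [h1, im_sn_gr]

/-- The condition `(i, d)` has the label `x`. -/
def Lb (K : Set ZFSet.{0}) (Le W D I p i d x : ZFSet.{0}) : Prop :=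
  ∃ ζ ∈ K, ζ.IsOrdinal ∧ ∃ q ∈ K, FF K Le W D I p ζ = pair (pair i d) (pair q x)

section

variable {M C P Le W D I p : ZFSet.{0}} (h : CX M C P Le) (hW : WO M C W) (hD : D ∈ C)
  (hI : I ∈ M) (hp : p ∈ P) {n : ℕ}

include h hW hD hI hp

theorem uq' {F G : (Fin n → ZFSet.{0}) → ZFSet.{0}}
    (hF : DfnF {X | X ∈ C} {x | x ∈ M} F) (hG : DfnF {X | X ∈ C} {x | x ∈ M} G) :
    Dfn {X | X ∈ C} {x | x ∈ M} fun v => uq {x | x ∈ M} Le p (F v) (G v) := by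
  have hB := h.zf.base
  have hpK : p ∈ {x | x ∈ M} := h.subM hp
  refine Dfn.comp2 (Q := fun y u => uq {x | x ∈ M} Le p y u) ?_ hF hG
  unfold uq
  apply Dfn.ex
  apply Dfn.ex
  apply Dfn.and
  · exact Dfn.eq (DfnF.proj 3) (hB.pair' (DfnF.proj 1) (DfnF.proj 0))
  apply Dfn.and
  · exact h.le' (DfnF.proj 1) (h.sm.const hpK)
  · apply hB.ball (DfnF.proj 2)
    exact (Dfn.eq (h.sm.sn' (DfnF.proj 0)) (DfnF.proj 4)).not

theorem prc' {F : (Fin n → ZFSet.{0}) → ZFSet.{0}}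
    (hF : DfnF {X | X ∈ C} {x | x ∈ M} F) :
    DfnF {X | X ∈ C} {x | x ∈ M} fun v => prc {x | x ∈ M} Le W p (F v) := by
  refine DfnF.comp1 (f := fun y => prc {x | x ∈ M} Le W p y) ?_ hF
  unfold prc
  refine pk' h hW ?_
  refine h.sm.wt' (Q := fun u v => uq {x | x ∈ M} Le p (v 0) u) ?_
  exact uq' h hW hD hI hp (DfnF.proj 1) (DfnF.proj 0)

theorem ui' {F G H : (Fin n → ZFSet.{0}) → ZFSet.{0}}
    (hF : DfnF {X | X ∈ C} {x | x ∈ M} F) (hG : DfnF {X | X ∈ C} {x | x ∈ M} G)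
    (hH : DfnF {X | X ∈ C} {x | x ∈ M} H) :
    Dfn {X | X ∈ C} {x | x ∈ M} fun v => ui {x | x ∈ M} Le W D I (F v) (G v) (H v) := by
  have hB := h.zf.base
  have hIK : I ∈ {x | x ∈ M} := hI
  refine Dfn.comp3 (Q := fun q y u => ui {x | x ∈ M} Le W D I q y u) ?_ hF hG hH
  unfold ui
  apply Dfn.ex
  apply Dfn.ex
  -- the variables are `d, i, q, y, u`
  apply Dfn.and
  · exact Dfn.eq (DfnF.proj 4) (hB.pair' (DfnF.proj 1) (DfnF.proj 0))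
  apply Dfn.and
  · exact Dfn.mem (DfnF.proj 1) (h.sm.const hIK)
  apply Dfn.and
  · exact Bad' h hW hD (DfnF.proj 1) (DfnF.proj 2)
  apply Dfn.and
  · apply Dfn.ex
    exact (h.le' (DfnF.proj 0) (DfnF.proj 3)).and
      (EE' h hW hD (DfnF.proj 2) (DfnF.proj 0) (DfnF.proj 1))
  · apply hB.ball (DfnF.proj 3)
    exact (Dfn.eq (h.sm.fs' (DfnF.proj 0)) (DfnF.proj 5)).not

theorem itc' {F : (Fin n → ZFSet.{0}) → ZFSet.{0}}
    (hF : DfnF {X | X ∈ C} {x | x ∈ M} F) :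
    DfnF {X | X ∈ C} {x | x ∈ M} fun v => itc {x | x ∈ M} Le W D I p (F v) := by
  refine DfnF.comp1 (f := fun y => itc {x | x ∈ M} Le W D I p y) ?_ hF
  unfold itc
  refine pk' h hW ?_
  refine h.sm.wt' (Q := fun u v => ui {x | x ∈ M} Le W D I
    (fs (prc {x | x ∈ M} Le W p (v 0))) (v 0) u) ?_
  exact ui' h hW hD hI hp (h.sm.fs' (prc' h hW hD hI hp (DfnF.proj 1))) (DfnF.proj 1)
    (DfnF.proj 0)

theorem dfn_FF : DfnF {X | X ∈ C} {x | x ∈ M} fun w : Fin 1 → ZFSet.{0} =>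
    FF {x | x ∈ M} Le W D I p (w 0) := by
  have hB := h.zf.base
  refine h.sm.memrec (G := fun _ g => stp {x | x ∈ M} Le W D I p (im sn g)) ?_
    (fun z => wfF_eq _ _ _ _)
  have h1 : DfnF {X | X ∈ C} {x | x ∈ M} fun w : Fin 2 → ZFSet.{0} => im sn (w 1) := by
    refine h.sm.im' (h := fun p _ => sn p) (DfnF.proj 1) ?_
    exact h.sm.sn' (DfnF.proj 0)
  unfold stp
  exact hB.pair' (itc' h hW hD hI hp h1) (prc' h hW hD hI hp h1)

theorem Lb' {F G H : (Fin n → ZFSet.{0}) → ZFSet.{0}}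
    (hF : DfnF {X | X ∈ C} {x | x ∈ M} F) (hG : DfnF {X | X ∈ C} {x | x ∈ M} G)
    (hH : DfnF {X | X ∈ C} {x | x ∈ M} H) :
    Dfn {X | X ∈ C} {x | x ∈ M} fun v => Lb {x | x ∈ M} Le W D I p (F v) (G v) (H v) := by
  have hB := h.zf.base
  refine Dfn.comp3 (Q := fun i d x => Lb {x | x ∈ M} Le W D I p i d x) ?_ hF hG hH
  unfold Lb
  apply Dfn.ex
  apply Dfn.and (hB.isOrdinal' (DfnF.proj 0))
  apply Dfn.ex
  refine Dfn.eq (DfnF.comp1 (f := FF {x | x ∈ M} Le W D I p) (dfn_FF h hW hD hI hp)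
    (DfnF.proj 1)) ?_
  exact hB.pair' (hB.pair' (DfnF.proj 2) (DfnF.proj 3)) (hB.pair' (DfnF.proj 0) (DfnF.proj 4))

theorem FF_mem {z : ZFSet.{0}} (hz : z ∈ M) : FF {x | x ∈ M} Le W D I p z ∈ M :=
  (dfn_FF h hW hD hI hp).1 (fun _ => z) fun _ => hz

theorem imFF_mem {z : ZFSet.{0}} (hz : z ∈ M) : im (FF {x | x ∈ M} Le W D I p) z ∈ M :=
  h.sm.im_mem (h := FF {x | x ∈ M} Le W D I p) hz (dfn_FF h hW hD hI hp)

theorem wtuq_mem {y : ZFSet.{0}} (hy : y ∈ M) :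
    wt {x | x ∈ M} (fun u => uq {x | x ∈ M} Le p y u) ∈ M := by
  have hy' : y ∈ {x | x ∈ M} := hy
  have h1 : DfnF {X | X ∈ C} {x | x ∈ M} fun v : Fin 1 → ZFSet.{0} =>
      wt {x | x ∈ M} (fun u => uq {x | x ∈ M} Le p y u) := by
    refine h.sm.wt' (Q := fun u v => uq {x | x ∈ M} Le p y u) ?_
    exact uq' h hW hD hI hp (h.sm.const hy') (DfnF.proj 0)
  exact h1.1 (fun _ => y) fun _ => hy

theorem wtui_mem {q y : ZFSet.{0}} (hq : q ∈ M) (hy : y ∈ M) :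
    wt {x | x ∈ M} (fun u => ui {x | x ∈ M} Le W D I q y u) ∈ M := by
  have hy' : y ∈ {x | x ∈ M} := hy
  have hq' : q ∈ {x | x ∈ M} := hq
  have h1 : DfnF {X | X ∈ C} {x | x ∈ M} fun v : Fin 1 → ZFSet.{0} =>
      wt {x | x ∈ M} (fun u => ui {x | x ∈ M} Le W D I q y u) := by
    refine h.sm.wt' (Q := fun u v => ui {x | x ∈ M} Le W D I q y u) ?_
    exact ui' h hW hD hI hp (h.sm.const hq') (h.sm.const hy') (DfnF.proj 0)
  exact h1.1 (fun _ => y) fun _ => hy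

omit h hW hD hI hp in
theorem rank_sn_le (v : ZFSet.{0}) : (sn v).rank ≤ v.rank := by
  by_cases h1 : ∃ a b, v = pair a b
  · obtain ⟨a, b, rfl⟩ := h1
    rw [sn_pair]
    have h2 : b.rank < ({a, b} : ZFSet.{0}).rank := ZFSet.rank_lt_of_mem (by simp)
    exact (h2.trans (ZFSet.rank_lt_of_mem (by simp [pair]))).le
  · rw [sn, dif_neg h1, ZFSet.rank_empty]
    exact zero_le

omit h hW hD hI hp in
theorem rank_snd_lt (a b : ZFSet.{0}) : b.rank < (pair a b).rank := by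
  have h2 : b.rank < ({a, b} : ZFSet.{0}).rank := ZFSet.rank_lt_of_mem (by simp)
  exact h2.trans (ZFSet.rank_lt_of_mem (by simp [pair]))

theorem uq_ne {y : ZFSet.{0}} (hy : y ∈ M) : ∃ u ∈ M, uq {x | x ∈ M} Le p y u := by
  refine ⟨pair p y, h.zf.pair_mem (h.subM hp) hy, p, h.subM hp, y, hy, rfl, h.cf.refl p hp,
    fun v hv he => ?_⟩
  have h1 := rank_sn_le v
  rw [he] at h1
  exact absurd (ZFSet.rank_lt_of_mem hv) (not_lt.2 ((rank_snd_lt p y).le.trans h1))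

/-- The properties of the next pair. -/
theorem prc_spec {y : ZFSet.{0}} (hy : y ∈ M) :
    uq {x | x ∈ M} Le p y (prc {x | x ∈ M} Le W p y) ∧
      ∀ u ∈ M, uq {x | x ∈ M} Le p y u → (prc {x | x ∈ M} Le W p y).rank ≤ u.rank := by
  obtain ⟨w, hw⟩ := wt_ne h.zf (uq_ne h hW hD hI hp hy)
  obtain ⟨h1, h2⟩ := pk_spec h hW (wtuq_mem h hW hD hI hp hy) ⟨w, hw⟩
  obtain ⟨h3, h4, h5⟩ := (mem_wt h.zf).1 h1
  exact ⟨h4, h5⟩

end

/-- The assumptions on the counterexample to pretameness. -/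
structure NP (M C P Le W D I p : ZFSet.{0}) : Prop where
  cx : CX M C P Le
  wo : WO M C W
  hD : D ∈ C
  hI : I ∈ M
  hp : p ∈ P
  dense : ∀ i ∈ I, ∀ q ∈ P, pair q p ∈ Le → ∃ x ∈ P, pair i x ∈ D ∧ pair x q ∈ Le
  no : ∀ q ∈ P, pair q p ∈ Le → ¬ ∃ d ∈ M, d ⊆ D ∧ ∀ i ∈ I, ∀ r ∈ P, pair r q ∈ Le →
        ∃ x ∈ P, pair i x ∈ d ∧ ∃ s ∈ P, pair s r ∈ Le ∧ pair s x ∈ Le

section

variable {M C P Le W D I p : ZFSet.{0}} (H : NP M C P Le W D I p)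

include H

theorem exists_bad {q : ZFSet.{0}} (hq : pair q p ∈ Le) : ∃ i ∈ I, Bad {x | x ∈ M} Le D i q := by
  have h := H.cx
  have hB := h.zf.base
  by_contra hno
  push Not at hno
  have hqM := (h.leM hq).1
  have hR : Dfn {X | X ∈ C} {x | x ∈ M} fun w : Fin 2 → ZFSet.{0} =>
      (∀ x ∈ w 1, pair (w 0) x ∈ D) ∧ ∀ r ∈ {x | x ∈ M}, pair r q ∈ Le →
        ∃ x ∈ w 1, ∃ t ∈ {x | x ∈ M}, pair t r ∈ Le ∧ pair t x ∈ Le := by
    apply Dfn.and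
    · apply hB.ball (DfnF.proj 1)
      exact D' h H.wo H.hD (DfnF.proj 1) (DfnF.proj 0)
    · apply Dfn.all
      apply Dfn.imp
      · exact h.le' (DfnF.proj 0) (h.sm.const hqM)
      · apply hB.bex (DfnF.proj 2)
        apply Dfn.ex
        exact (h.le' (DfnF.proj 0) (DfnF.proj 2)).and (h.le' (DfnF.proj 0) (DfnF.proj 1))
  obtain ⟨y, hy, h1⟩ := h.sm.coll (Q := fun i e => (∀ x ∈ e, pair i x ∈ D) ∧
      ∀ r ∈ {x | x ∈ M}, pair r q ∈ Le →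
        ∃ x ∈ e, ∃ t ∈ {x | x ∈ M}, pair t r ∈ Le ∧ pair t x ∈ Le) hR (x := I) H.hI (by
    intro i hi
    have h2 := hno i hi
    unfold Bad at h2
    push Not at h2
    obtain ⟨e, he, h3, h4⟩ := h2
    refine ⟨e, he, h3, fun r hr hrq => ?_⟩
    obtain ⟨x, hx, t, ht, h5⟩ := h4 r hr hrq
    exact ⟨x, hx, t, ht, h5⟩)
  have hU := h.zf.union _ hy
  have hd := h.sm.sep_mem (Q := fun z => z ∈ D) (h.dcls H.hD) (h.zf.prod_mem H.hI hU)
  refine H.no q (h.leP hq).1 hq ⟨_, hd, fun z hz => (ZFSet.mem_sep.1 hz).2, fun i hi r hr hrq => ?_⟩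
  obtain ⟨e, he, h2, h3⟩ := h1 i hi
  obtain ⟨x, hx, t, ht, h4, h5⟩ := h3 r (h.subM hr) hrq
  exact ⟨x, (h.leP h5).2, ZFSet.mem_sep.2 ⟨ZFSet.pair_mem_prod.2 ⟨hi,
    ZFSet.mem_sUnion.2 ⟨e, he, hx⟩⟩, h2 x hx⟩, t, (h.leP h4).1, h4, h5⟩

/-- Conditions below `p` are compatible with elements of `D i`. -/
theorem cp_ne {i r : ZFSet.{0}} (hi : i ∈ I) (hr : pair r p ∈ Le) :
    ∃ d ∈ M, Cp {x | x ∈ M} Le D i r d := by
  have h := H.cx
  obtain ⟨x, hx, h1, h2⟩ := H.dense i hi r (h.leP hr).1 hr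
  exact ⟨x, h.subM hx, h1, x, h.subM hx, h.cf.refl x hx, h2⟩

theorem exists_new {q s : ZFSet.{0}} (hq : pair q p ∈ Le) (hs : s ∈ M) :
    ∃ i ∈ I, ∃ d ∈ M, Bad {x | x ∈ M} Le D i q ∧
      (∃ r ∈ {x | x ∈ M}, pair r q ∈ Le ∧ EE {x | x ∈ M} Le W D i r d) ∧ pair i d ∉ s := by
  have h := H.cx
  obtain ⟨i, hi, hbad⟩ := exists_bad H hq
  have hiM := h.zf.trans _ H.hI _ hi
  have he : ZFSet.sep (fun x => pair i x ∈ D) (Vh {x | x ∈ M} (rk s)) ∈ M := by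
    refine h.sm.sep_mem (Q := fun x => pair i x ∈ D) ?_ (Vh_mem h.zf (rk_mem h.zf hs))
    exact D' h H.wo H.hD (h.sm.const hiM) (DfnF.proj 0)
  obtain ⟨r, hr, hrq, h1⟩ := hbad _ he fun x hx => (ZFSet.mem_sep.1 hx).2
  have hne := cp_ne H hi (h.le_trans hrq hq)
  obtain ⟨t, ht, h2⟩ := exists_EE h H.wo H.hD hiM hr hne
  obtain ⟨h3, ⟨h4, t', ht', h5, h6⟩, -, -⟩ := ee_spec h H.wo H.hD hiM hr hne
  refine ⟨i, hi, _, h3, hbad, ⟨t, (h.leM ht).1, h.le_trans ht hrq, h2⟩, fun h7 => ?_⟩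
  refine h1 (ee {x | x ∈ M} Le W D i r) (ZFSet.mem_sep.2 ⟨mem_Vh_of_rk h.zf _ h3 ?_, h4⟩)
    ⟨t', ht', h6, h5⟩
  exact Ordinal.toZFSet_mem_toZFSet_iff.2 ((rank_snd_lt i _).trans (ZFSet.rank_lt_of_mem h7))

theorem itc_spec {y : ZFSet.{0}} (hy : y ∈ M) :
    ui {x | x ∈ M} Le W D I (fs (prc {x | x ∈ M} Le W p y)) y (itc {x | x ∈ M} Le W D I p y) := by
  have h := H.cx
  obtain ⟨⟨q, hq, x, hx, h1, h2, h3⟩, -⟩ := prc_spec h H.wo H.hD H.hI H.hp hy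
  have hfs : fs (prc {x | x ∈ M} Le W p y) = q := by rw [h1, fs_pair]
  have hne : ∃ u ∈ M, ui {x | x ∈ M} Le W D I (fs (prc {x | x ∈ M} Le W p y)) y u := by
    rw [hfs]
    have him : im fs y ∈ M := h.sm.im_mem (h := fs) hy (h.sm.fs' (DfnF.proj 0))
    obtain ⟨i, hi, d, hd, h4, h5, h6⟩ := exists_new H h2 him
    exact ⟨pair i d, h.zf.pair_mem (h.zf.trans _ H.hI _ hi) hd, i, h.zf.trans _ H.hI _ hi, d, hd,
      rfl, hi, h4, h5, fun v hv he => h6 (mem_im.2 ⟨v, hv, he.symm⟩)⟩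
  obtain ⟨w, hw⟩ := wt_ne h.zf hne
  have hqM : fs (prc {x | x ∈ M} Le W p y) ∈ M := by rw [hfs]; exact hq
  obtain ⟨h4, h5⟩ := pk_spec h H.wo (wtui_mem h H.wo H.hD H.hI H.hp hqM hy) ⟨w, hw⟩
  exact ((mem_wt h.zf).1 h4).2.1

/-- The properties of the enumeration. -/
theorem FF_spec {z : ZFSet.{0}} (hz : z ∈ M) : ∃ i d q x, FF {x | x ∈ M} Le W D I p z =
    pair (pair i d) (pair q x) ∧ i ∈ I ∧ d ∈ M ∧ x ∈ M ∧ pair q p ∈ Le ∧
    (∃ r, pair r q ∈ Le ∧ EE {x | x ∈ M} Le W D i r d) ∧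
    (∀ u ∈ z, fs (FF {x | x ∈ M} Le W D I p u) ≠ pair i d ∧
      sn (FF {x | x ∈ M} Le W D I p u) ≠ pair q x) ∧
    (∀ q' x', x' ∈ M → pair q' p ∈ Le → (∀ u ∈ z, sn (FF {x | x ∈ M} Le W D I p u) ≠
      pair q' x') → (pair q x).rank ≤ (pair q' x').rank) := by
  have h := H.cx
  have hy := imFF_mem h H.wo H.hD H.hI H.hp hz
  set y := im (FF {x | x ∈ M} Le W D I p) z with hydef
  obtain ⟨⟨q, hq, x, hx, h1, h2, h3⟩, h3'⟩ := prc_spec h H.wo H.hD H.hI H.hp hy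
  obtain ⟨i, hi, d, hd, h4, h5, h6, ⟨r, hr, h7⟩, h8⟩ := itc_spec H hy
  have hfs : fs (prc {x | x ∈ M} Le W p y) = q := by rw [h1, fs_pair]
  rw [hfs] at h7
  refine ⟨i, d, q, x, ?_, h5, hd, hx, h2, ⟨r, h7⟩, fun u hu => ?_, fun q' x' hx' hq' hu => ?_⟩
  · rw [FF_eq, ← hydef, stp, h4, h1]
  · have hu' : FF {x | x ∈ M} Le W D I p u ∈ y := mem_im.2 ⟨u, hu, rfl⟩
    exact ⟨h4 ▸ h8 _ hu', h1 ▸ h3 _ hu'⟩
  · rw [← h1]
    have hq'M := (h.leM hq').1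
    refine h3' _ (h.zf.pair_mem hq'M hx') ⟨q', hq'M, x', hx', rfl, hq', fun v hv => ?_⟩
    obtain ⟨u, hu1, rfl⟩ := mem_im.1 hv
    exact hu u hu1

/-- The labels are unique. -/
theorem Lb_unique {i d x x' : ZFSet.{0}} (h1 : Lb {x | x ∈ M} Le W D I p i d x)
    (h2 : Lb {x | x ∈ M} Le W D I p i d x') : x = x' := by
  obtain ⟨ζ, hζ, ho, q, hq, h3⟩ := h1
  obtain ⟨ζ', hζ', ho', q', hq', h4⟩ := h2
  rcases ho.mem_trichotomous ho' with h5 | h5 | h5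
  · obtain ⟨i₁, d₁, q₁, x₁, h6, -, -, -, -, -, h7, -⟩ := FF_spec H hζ'
    have h8 := (h7 ζ h5).1
    rw [h3, fs_pair] at h8
    rw [h4] at h6
    exact absurd (ZFSet.pair_inj.1 h6).1 h8
  · subst h5
    rw [h3] at h4
    exact (ZFSet.pair_inj.1 (ZFSet.pair_inj.1 h4).2).2
  · obtain ⟨i₁, d₁, q₁, x₁, h6, -, -, -, -, -, h7, -⟩ := FF_spec H hζ
    have h8 := (h7 ζ' h5).1
    rw [h4, fs_pair] at h8
    rw [h3] at h6
    exact absurd (ZFSet.pair_inj.1 h6).1 h8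

/-- Every pair is served. -/
theorem served {q x : ZFSet.{0}} (hq : pair q p ∈ Le) (hx : x ∈ M) :
    ∃ ζ ∈ M, ζ.IsOrdinal ∧ sn (FF {x | x ∈ M} Le W D I p ζ) = pair q x := by
  have h := H.cx
  have hB := h.zf.base
  by_contra hno
  push Not at hno
  have hqM := (h.leM hq).1
  have hqx := h.zf.pair_mem hqM hx
  have hFFd : DfnF {X | X ∈ C} {x | x ∈ M} fun w : Fin 1 → ZFSet.{0} =>
      FF {x | x ∈ M} Le W D I p (w 0) := dfn_FF h H.wo H.hD H.hI H.hp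
  -- the values are in a set
  set T := Vh {x | x ∈ M} (sc (rk (pair q x))) with hT
  have hTM : T ∈ M := Vh_mem h.zf (h.zf.insert_mem (rk_mem h.zf hqx) (rk_mem h.zf hqx))
  have hval : ∀ ζ ∈ M, ζ.IsOrdinal → sn (FF {x | x ∈ M} Le W D I p ζ) ∈ T := by
    intro ζ hζ ho
    obtain ⟨i, d, q', x', h1, h2, h3, h4, h5, h6, h7, h8⟩ := FF_spec H hζ
    rw [h1, sn_pair]
    have h9 := h8 q x hx hq fun u hu => hno u (h.zf.trans _ hζ _ hu) (ho.mem hu)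
    refine mem_Vh_of_rk h.zf _ (h.zf.pair_mem (h.leM h5).1 h4) ?_
    rcases lt_or_eq_of_le h9 with h10 | h10
    · exact ZFSet.mem_insert_iff.2 (Or.inr (Ordinal.toZFSet_mem_toZFSet_iff.2 h10))
    · have h11 : rk (pair q' x') = rk (pair q x) := by
        unfold rk
        rw [h10]
      rw [h11]
      exact ZFSet.mem_insert _ _
  have hinj : ∀ ζ ∈ M, ζ.IsOrdinal → ∀ ζ' ∈ M, ζ'.IsOrdinal →
      sn (FF {x | x ∈ M} Le W D I p ζ) = sn (FF {x | x ∈ M} Le W D I p ζ') → ζ = ζ' := by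
    intro ζ hζ ho ζ' hζ' ho' he
    rcases ho.mem_trichotomous ho' with h5 | h5 | h5
    · obtain ⟨i₁, d₁, q₁, x₁, h6, -, -, -, -, -, h7, -⟩ := FF_spec H hζ'
      have h8 := (h7 ζ h5).2
      rw [he, h6, sn_pair] at h8
      exact absurd rfl h8
    · exact h5
    · obtain ⟨i₁, d₁, q₁, x₁, h6, -, -, -, -, -, h7, -⟩ := FF_spec H hζ
      have h8 := (h7 ζ' h5).2
      rw [← he, h6, sn_pair] at h8
      exact absurd rfl h8
  have hR : Dfn {X | X ∈ C} {x | x ∈ M} fun w : Fin 2 → ZFSet.{0} =>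
      (w 1).IsOrdinal ∧ sn (FF {x | x ∈ M} Le W D I p (w 1)) = w 0 := by
    refine (hB.isOrdinal' (DfnF.proj 1)).and ?_
    exact Dfn.eq (h.sm.sn' (DfnF.comp1 (f := FF {x | x ∈ M} Le W D I p) hFFd (DfnF.proj 1)))
      (DfnF.proj 0)
  have hT' : ZFSet.sep (fun t => ∃ ζ ∈ {x | x ∈ M}, ζ.IsOrdinal ∧
      sn (FF {x | x ∈ M} Le W D I p ζ) = t) T ∈ M := by
    refine h.sm.sep_mem (Q := fun t => ∃ ζ ∈ {x | x ∈ M}, ζ.IsOrdinal ∧
      sn (FF {x | x ∈ M} Le W D I p ζ) = t) ?_ hTM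
    apply Dfn.ex
    refine (hB.isOrdinal' (DfnF.proj 0)).and ?_
    exact Dfn.eq (h.sm.sn' (DfnF.comp1 (f := FF {x | x ∈ M} Le W D I p) hFFd (DfnF.proj 0)))
      (DfnF.proj 1)
  obtain ⟨y, hy, h1⟩ := h.sm.coll (Q := fun t ζ => ζ.IsOrdinal ∧
      sn (FF {x | x ∈ M} Le W D I p ζ) = t) hR hT' (fun t ht => by
    obtain ⟨-, ζ, hζ, h2, h3⟩ := ZFSet.mem_sep.1 ht
    exact ⟨ζ, hζ, h2, h3⟩)
  have hrM : rk y ∈ M := rk_mem h.zf hy
  have hro : (rk y).IsOrdinal := isOrdinal_rk y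
  obtain ⟨ζ, hζ, h2, h3⟩ := h1 _ (ZFSet.mem_sep.2 ⟨hval _ hrM hro, rk y, hrM, hro, rfl⟩)
  have h4 := hinj ζ (h.zf.trans _ hy _ hζ) h2 _ hrM hro h3
  have h5 := ZFSet.rank_lt_of_mem hζ
  rw [h4, rank_rk] at h5
  exact lt_irrefl _ h5

/-- Every label occurs below every condition. -/
theorem exists_label {q x : ZFSet.{0}} (hq : pair q p ∈ Le) (hx : x ∈ M) :
    ∃ r, pair r q ∈ Le ∧ ∃ i ∈ I, ∃ d ∈ M, EE {x | x ∈ M} Le W D i r d ∧
      Lb {x | x ∈ M} Le W D I p i d x := by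
  obtain ⟨ζ, hζ, ho, h1⟩ := served H hq hx
  obtain ⟨i, d, q', x', h2, h3, h4, h5, h6, ⟨r, h7, h8⟩, h9, h10⟩ := FF_spec H hζ
  rw [h2, sn_pair] at h1
  obtain ⟨rfl, rfl⟩ := ZFSet.pair_inj.1 h1
  exact ⟨r, h7, i, h3, d, h4, h8, ζ, hζ, ho, q', (H.cx.leM h6).1, h2⟩

end

end Pool.Agent.H635.PT
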