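import Pool.Agent.H635.PT.Sys

/-!
# Pretame class forcings satisfy the forcing theorem
-/

set_option autoImplicit false
set_option linter.unreachableTactic false
set_option linter.unusedTactic false
set_option linter.unusedSectionVars false
set_option linter.unusedVariables false

namespace Pool.Agent.H635.PT

open Pool.Agent.W868 Pool.Agent.W868.GM Pool.Agent.Y588 Pool.Agent.R597
open ZFSet (pair)

/-- Pretameness: for all sequences `(D i)`, `i ∈ I`, of classes that are dense below `p` there are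
`q ≤ p` and a sequence of sets `d i ⊆ D i` in the model that are predense below `q`. -/
def Pretame (M C P Le : ZFSet.{0}) : Prop :=
  ∀ p ∈ P, ∀ I ∈ M, ∀ D ∈ C,
    (∀ i ∈ I, ∀ q ∈ P, pair q p ∈ Le → ∃ x ∈ P, pair i x ∈ D ∧ pair x q ∈ Le) →
      ∃ q ∈ P, pair q p ∈ Le ∧ ∃ d ∈ M, d ⊆ D ∧ ∀ i ∈ I, ∀ r ∈ P, pair r q ∈ Le →
        ∃ x ∈ P, pair i x ∈ d ∧ ∃ s ∈ P, pair s r ∈ Le ∧ pair s x ∈ Le

theorem rank_Vh {M : Set ZFSet.{0}} {z x : ZFSet.{0}} (h : x ∈ Vh M z) : x.rank < z.rank := by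
  induction z using ZFSet.inductionOn generalizing x with
  | _ z ih =>
    obtain ⟨u, hu, -, h1⟩ := mem_Vh.1 h
    refine lt_of_le_of_lt ?_ (ZFSet.rank_lt_of_mem hu)
    rw [ZFSet.rank_le_iff]
    intro y hy
    exact ih u hu (h1 hy)

theorem rank_rk (x : ZFSet.{0}) : (rk x).rank = x.rank := by
  unfold rk
  exact Ordinal.rank_toZFSet _

theorem rank_fst {a v x : ZFSet.{0}} (h : pair a v ∈ x) : a.rank < x.rank :=
  rank_lt_of_pair_mem h

section

variable {M C P Le : ZFSet.{0}} (h : CX M C P Le)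

include h

/-- An element of a filter that is below two elements. -/
theorem CX.two {G : ZFSet.{0}} (hG : IsGen C P Le G) {a b : ZFSet.{0}} (ha : a ∈ G)
    (hb : b ∈ G) : ∃ c ∈ G, pair c a ∈ Le ∧ pair c b ∈ Le := hG.dir a ha b hb

theorem CX.up {G : ZFSet.{0}} (hG : IsGen C P Le G) {a b : ZFSet.{0}} (ha : a ∈ G)
    (hab : pair a b ∈ Le) : b ∈ G := hG.up a ha b (h.leP hab).2 hab

theorem dicho (w x y : ZFSet.{0}) {q : ZFSet.{0}} (hq : q ∈ P) :
    T1 {x | x ∈ M} Le w x y q ∨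
      ∃ s ∈ {x | x ∈ M}, pair s q ∈ Le ∧ T0 {x | x ∈ M} Le w x y s := by
  by_contra hc
  push Not at hc
  obtain ⟨h1, h2⟩ := hc
  apply h1
  constructor
  · intro a ha v hv hax t ht hts htv
    by_contra hno
    refine h2 t ht hts (Or.inl ⟨a, ha, v, hv, hax, htv, ?_⟩)
    rintro b hb u hu hby r hr hw ⟨t', ht', h3, h4, h5⟩
    exact hno ⟨t', ht', h3, b, hb, u, hu, hby, h4, r, hr, hw, h5⟩
  · intro b hb u hu hby t ht hts htu
    by_contra hno
    refine h2 t ht hts (Or.inr ⟨b, hb, u, hu, hby, htu, ?_⟩)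
    rintro a ha v hv hax r hr hw ⟨t', ht', h3, h4, h5⟩
    exact hno ⟨t', ht', h3, a, ha, v, hv, hax, h4, r, hr, hw, h5⟩

theorem sem {G : ZFSet.{0}} (hG : IsGen C P Le G) {w w' x y : ZFSet.{0}} (hx : x ∈ M)
    (hy : y ∈ M) (hw : w ∈ M)
    (H : ∀ a v, pair a v ∈ x → ∀ b u, pair b u ∈ y →
      (∃ r ∈ G, pair (pair a b) r ∈ w ∨ pair (pair a b) r ∈ w') ∧
      (∀ r ∈ G, pair (pair a b) r ∈ w → ev G a = ev G b) ∧
      (∀ r ∈ G, pair (pair a b) r ∈ w' → ev G a ≠ ev G b)) {s : ZFSet.{0}} (hs : s ∈ G) :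
    (T1 {x | x ∈ M} Le w x y s → ev G x = ev G y) ∧
      (T0 {x | x ∈ M} Le w x y s → ev G x ≠ ev G y) := by
  have hB := h.zf.base
  have hx' : x ∈ {x | x ∈ M} := hx
  have hy' : y ∈ {x | x ∈ M} := hy
  have hw' : w ∈ {x | x ∈ M} := hw
  constructor
  · rintro ⟨h1, h2⟩
    ext z
    constructor
    · intro hz
      obtain ⟨a, v, hav, hvG, rfl⟩ := mem_ev.1 hz
      have haK := (h.zf.of_pair_mem (h.zf.trans _ hx _ hav))
      obtain ⟨t, ht, hts, htv⟩ := h.two hG hs hvG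
      have ha' : a ∈ {x | x ∈ M} := haK.1
      obtain ⟨t', ht', b, hb, u, hu, hbu, h3, r, hr, hrw, h4⟩ := h.meet hG (Q := fun t' =>
          ∃ b ∈ {x | x ∈ M}, ∃ u ∈ {x | x ∈ M}, pair b u ∈ y ∧ pair t' u ∈ Le ∧
            ∃ r ∈ {x | x ∈ M}, pair (pair a b) r ∈ w ∧ pair t' r ∈ Le) (by
          (repeat' first
            | exact DfnF.proj _
            | exact h.sm.const (by assumption)
            | apply Dfn.not | apply Dfn.and | apply Dfn.or | apply Dfn.imp | apply Dfn.iff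
            | apply Dfn.ex | apply Dfn.all | apply hB.bex | apply hB.ball | apply h.le'
            | apply Dfn.eq | apply Dfn.mem | apply hB.pair')) ht (by
          intro q hq hqt
          obtain ⟨t', ht', h5, h6⟩ := h1 a haK.1 v haK.2 hav q (h.subM hq) (h.le_trans hqt hts)
            (h.le_trans hqt htv)
          exact ⟨t', (h.leP h5).1, h5, h6⟩)
      rw [(H a v hav b u hbu).2.1 r (h.up hG ht' h4) hrw]
      exact mem_ev.2 ⟨b, u, hbu, h.up hG ht' h3, rfl⟩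
    · intro hz
      obtain ⟨b, u, hbu, huG, rfl⟩ := mem_ev.1 hz
      have hbK := (h.zf.of_pair_mem (h.zf.trans _ hy _ hbu))
      obtain ⟨t, ht, hts, htu⟩ := h.two hG hs huG
      have hb' : b ∈ {x | x ∈ M} := hbK.1
      obtain ⟨t', ht', a, ha, v, hv, hav, h3, r, hr, hrw, h4⟩ := h.meet hG (Q := fun t' =>
          ∃ a ∈ {x | x ∈ M}, ∃ v ∈ {x | x ∈ M}, pair a v ∈ x ∧ pair t' v ∈ Le ∧
            ∃ r ∈ {x | x ∈ M}, pair (pair a b) r ∈ w ∧ pair t' r ∈ Le) (by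
          (repeat' first
            | exact DfnF.proj _
            | exact h.sm.const (by assumption)
            | apply Dfn.not | apply Dfn.and | apply Dfn.or | apply Dfn.imp | apply Dfn.iff
            | apply Dfn.ex | apply Dfn.all | apply hB.bex | apply hB.ball | apply h.le'
            | apply Dfn.eq | apply Dfn.mem | apply hB.pair')) ht (by
          intro q hq hqt
          obtain ⟨t', ht', h5, h6⟩ := h2 b hbK.1 u hbK.2 hbu q (h.subM hq) (h.le_trans hqt hts)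
            (h.le_trans hqt htu)
          exact ⟨t', (h.leP h5).1, h5, h6⟩)
      rw [← (H a v hav b u hbu).2.1 r (h.up hG ht' h4) hrw]
      exact mem_ev.2 ⟨a, v, hav, h.up hG ht' h3, rfl⟩
  · rintro (⟨a, ha, v, hv, hav, hsv, h1⟩ | ⟨b, hb, u, hu, hbu, hsu, h1⟩) he
    · have hz : ev G a ∈ ev G x := mem_ev.2 ⟨a, v, hav, h.up hG hs hsv, rfl⟩
      rw [he] at hz
      obtain ⟨b, u, hbu, huG, hab⟩ := mem_ev.1 hz
      have hbK := (h.zf.of_pair_mem (h.zf.trans _ hy _ hbu))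
      obtain ⟨⟨r, hr, h2⟩, h3, h4⟩ := H a v hav b u hbu
      rcases h2 with h2 | h2
      · obtain ⟨t, ht, h5, h6⟩ := h.two hG hs huG
        obtain ⟨t', ht', h7, h8⟩ := h.two hG ht hr
        exact h1 b hbK.1 u hbK.2 hbu r (h.subM (hG.sub hr)) h2 ⟨t', h.subM (hG.sub ht'),
          h.le_trans h7 h5, h.le_trans h7 h6, h8⟩
      · exact h4 r hr h2 hab.symm
    · have hz : ev G b ∈ ev G y := mem_ev.2 ⟨b, u, hbu, h.up hG hs hsu, rfl⟩
      rw [← he] at hz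
      obtain ⟨a, v, hav, hvG, hab⟩ := mem_ev.1 hz
      have haK := (h.zf.of_pair_mem (h.zf.trans _ hx _ hav))
      obtain ⟨⟨r, hr, h2⟩, h3, h4⟩ := H a v hav b u hbu
      rcases h2 with h2 | h2
      · obtain ⟨t, ht, h5, h6⟩ := h.two hG hs hvG
        obtain ⟨t', ht', h7, h8⟩ := h.two hG ht hr
        exact h1 a haK.1 v haK.2 hav r (h.subM (hG.sub hr)) h2 ⟨t', h.subM (hG.sub ht'),
          h.le_trans h7 h5, h.le_trans h7 h6, h8⟩
      · exact h4 r hr h2 hab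

/-- Systems are correct. -/
theorem sound {G : ZFSet.{0}} (hG : IsGen C P Le G) {q A B w w' : ZFSet.{0}} (hA : A ∈ M)
    (hB' : B ∈ M) (hw : w ∈ M) (hw' : w' ∈ M) (hS : Sys {x | x ∈ M} Le q A B w w')
    (hq : q ∈ G) (x : ZFSet.{0}) : x ∈ A → ∀ y ∈ B,
      (∃ r ∈ G, pair (pair x y) r ∈ w ∨ pair (pair x y) r ∈ w') ∧
      (∀ r ∈ G, pair (pair x y) r ∈ w → ev G x = ev G y) ∧
      (∀ r ∈ G, pair (pair x y) r ∈ w' → ev G x ≠ ev G y) := by
  have hB := h.zf.base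
  obtain ⟨c1, c2, c3, c4, c5⟩ := hS
  have hwK : w ∈ {x | x ∈ M} := hw
  have hwK' : w' ∈ {x | x ∈ M} := hw'
  induction hrk : x.rank using WellFoundedLT.induction generalizing x with
  | _ α ih =>
  subst hrk
  intro hxA y hyB
  have hxK : x ∈ {x | x ∈ M} := h.zf.trans _ hA _ hxA
  have hyK : y ∈ {x | x ∈ M} := h.zf.trans _ hB' _ hyB
  have H : ∀ a v, pair a v ∈ x → ∀ b u, pair b u ∈ y →
      (∃ r ∈ G, pair (pair a b) r ∈ w ∨ pair (pair a b) r ∈ w') ∧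
      (∀ r ∈ G, pair (pair a b) r ∈ w → ev G a = ev G b) ∧
      (∀ r ∈ G, pair (pair a b) r ∈ w' → ev G a ≠ ev G b) := by
    intro a v hav b u hbu
    have haK := (h.zf.of_pair_mem (h.zf.trans _ hxK _ hav))
    have hbK := (h.zf.of_pair_mem (h.zf.trans _ hyK _ hbu))
    exact ih a.rank (rank_fst hav) a rfl (c1 x hxA a haK.1 v haK.2 hav) b
      (c2 y hyB b hbK.1 u hbK.2 hbu)
  refine ⟨?_, ?_, ?_⟩
  · obtain ⟨t, ht, r, hr, h1, h2⟩ := h.meet hG (Q := fun t => ∃ r ∈ {x | x ∈ M},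
        (pair (pair x y) r ∈ w ∨ pair (pair x y) r ∈ w') ∧ pair t r ∈ Le) (by
      (repeat' first
            | exact DfnF.proj _
            | exact h.sm.const (by assumption)
            | apply Dfn.not | apply Dfn.and | apply Dfn.or | apply Dfn.imp | apply Dfn.iff
            | apply Dfn.ex | apply Dfn.all | apply hB.bex | apply hB.ball | apply h.le'
            | apply Dfn.eq | apply Dfn.mem | apply hB.pair')) hq (by
      intro s hs hsq
      obtain ⟨r, hr, h1, t, ht, h2, h3⟩ := c3 x hxA y hyB s (h.subM hs) hsq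
      exact ⟨t, (h.leP h2).1, h2, r, hr, h1, h3⟩)
    exact ⟨r, h.up hG ht h2, h1⟩
  · intro r hr h1
    obtain ⟨s, hs, h2, h3⟩ := h.two hG hq hr
    exact (sem h hG hxK hyK hw H hs).1 (c4 x hxA y hyB r (h.subM (hG.sub hr)) h1 s
      (h.subM (hG.sub hs)) h2 h3)
  · intro r hr h1
    obtain ⟨s, hs, h2, h3⟩ := h.two hG hq hr
    obtain ⟨t, ht, h4⟩ := h.meet hG (Q := fun t => T0 {x | x ∈ M} Le w x y t)
      (T0' h (h.sm.const hwK) (h.sm.const hxK) (h.sm.const hyK) (DfnF.proj 0)) hs (by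
      intro t ht hts
      obtain ⟨t', ht', h4, h5⟩ := c5 x hxA y hyB r (h.subM (hG.sub hr)) h1 t (h.subM ht)
        (h.le_trans hts h2) (h.le_trans hts h3)
      exact ⟨t', (h.leP h4).1, h4, h5⟩)
    exact (sem h hG hxK hyK hw H ht).2 h4

theorem D1_sound {G : ZFSet.{0}} (hG : IsGen C P Le G) {q x y : ZFSet.{0}} (hx : x ∈ M)
    (hy : y ∈ M) (hd : D1 {x | x ∈ M} Le q x y) (hq : q ∈ G) : ev G x = ev G y := by
  obtain ⟨A, hA, B, hB, w, hw, w', hw', hS, h1, h2, h3⟩ := hd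
  refine (sem h hG hx hy hw (w' := w') ?_ hq).1 h3
  intro a v hav b u hbu
  have haK := (h.zf.of_pair_mem (h.zf.trans _ hx _ hav))
  have hbK := (h.zf.of_pair_mem (h.zf.trans _ hy _ hbu))
  exact sound h hG hA hB hw hw' hS hq a (h1 a haK.1 v haK.2 hav) b (h2 b hbK.1 u hbK.2 hbu)

theorem D0_sound {G : ZFSet.{0}} (hG : IsGen C P Le G) {q x y : ZFSet.{0}} (hx : x ∈ M)
    (hy : y ∈ M) (hd : D0 {x | x ∈ M} Le q x y) (hq : q ∈ G) : ev G x ≠ ev G y := by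
  obtain ⟨A, hA, B, hB, w, hw, w', hw', hS, h1, h2, h3⟩ := hd
  refine (sem h hG hx hy hw (w' := w') ?_ hq).2 h3
  intro a v hav b u hbu
  have haK := (h.zf.of_pair_mem (h.zf.trans _ hx _ hav))
  have hbK := (h.zf.of_pair_mem (h.zf.trans _ hy _ hbu))
  exact sound h hG hA hB hw hw' hS hq a (h1 a haK.1 v haK.2 hav) b (h2 b hbK.1 u hbK.2 hbu)

omit h in
theorem Sys.mono (hC : CX M C P Le) {q q' A B w w' : ZFSet.{0}}
    (hS : Sys {x | x ∈ M} Le q A B w w')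
    (hqq : pair q' q ∈ Le) : Sys {x | x ∈ M} Le q' A B w w' := by
  obtain ⟨c1, c2, c3, c4, c5⟩ := hS
  exact ⟨c1, c2, fun x hx y hy s hs hsq => c3 x hx y hy s hs (hC.le_trans hsq hqq),
    fun x hx y hy r hr hw s hs hsq => c4 x hx y hy r hr hw s hs (hC.le_trans hsq hqq),
    fun x hx y hy r hr hw s hs hsq => c5 x hx y hy r hr hw s hs (hC.le_trans hsq hqq)⟩

/-- The conditions that decide the equality of two names by a system are dense. -/
theorem exists_dec (hP : Pretame M C P Le) (x : ZFSet.{0}) : x ∈ M → ∀ y ∈ M, ∀ p ∈ P,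
    ∃ q ∈ P, pair q p ∈ Le ∧ (D1 {x | x ∈ M} Le q x y ∨ D0 {x | x ∈ M} Le q x y) := by
  induction hrk : x.rank using WellFoundedLT.induction generalizing x with
  | _ α ih =>
  subst hrk
  intro hx y hy p hp
  have hZ := h.zf
  have hB := h.zf.base
  set K : Set ZFSet.{0} := {x | x ∈ M} with hK
  set A := Vh K (rk x) with hAdef
  set B := Vh K (rk y) with hBdef
  have hA : A ∈ K := Vh_mem hZ (rk_mem hZ hx)
  have hBK : B ∈ K := Vh_mem hZ (rk_mem hZ hy)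
  have hAr : ∀ a ∈ A, a.rank < x.rank := fun a ha => by
    have h1 := rank_Vh ha
    rwa [rank_rk] at h1
  have hinA : ∀ a ∈ K, a.rank < x.rank → a ∈ A := fun a ha h1 =>
    mem_Vh_of_rk hZ _ ha (Ordinal.toZFSet_mem_toZFSet_iff.2 h1)
  have hinB : ∀ a ∈ K, a.rank < y.rank → a ∈ B := fun a ha h1 =>
    mem_Vh_of_rk hZ _ ha (Ordinal.toZFSet_mem_toZFSet_iff.2 h1)
  have hBr : ∀ a ∈ B, a.rank < y.rank := fun a ha => by
    have h1 := rank_Vh ha
    rwa [rank_rk] at h1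
  -- the dense classes
  have hdef : Dfn {X | X ∈ C} K fun w : Fin 1 → ZFSet.{0} => ∃ a ∈ K, ∃ b ∈ K, ∃ r ∈ K,
      w 0 = pair (pair a b) r ∧ (D1 K Le r a b ∨ D0 K Le r a b) := by
    apply Dfn.ex
    apply Dfn.ex
    apply Dfn.ex
    apply Dfn.and
    · exact Dfn.eq (DfnF.proj 3) (hB.pair' (hB.pair' (DfnF.proj 2) (DfnF.proj 1)) (DfnF.proj 0))
    · apply Dfn.or
      · exact Dfn.comp3 (Q := fun r a b => D1 K Le r a b) (dfn_D1 h) (DfnF.proj 0) (DfnF.proj 2)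
          (DfnF.proj 1)
      · exact Dfn.comp3 (Q := fun r a b => D0 K Le r a b) (dfn_D0 h) (DfnF.proj 0) (DfnF.proj 2)
          (DfnF.proj 1)
  obtain ⟨q, hq, hqp, d, hd, hdD, hpre⟩ := hP p hp (ZFSet.prod A B) (hZ.prod_mem hA hBK) _
    (h.cmp (Q := fun z => ∃ a ∈ K, ∃ b ∈ K, ∃ r ∈ K,
      z = pair (pair a b) r ∧ (D1 K Le r a b ∨ D0 K Le r a b)) hdef) (by
    intro i hi q hq hqp
    obtain ⟨a, ha, b, hb, rfl⟩ := ZFSet.mem_prod.1 hi
    have haK := hZ.trans _ hA _ ha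
    have hbK := hZ.trans _ hBK _ hb
    obtain ⟨r, hr, h1, h2⟩ := ih a.rank (hAr a ha) a rfl haK b hbK q hq
    refine ⟨r, hr, ZFSet.mem_sep.2 ⟨hZ.pair_mem (hZ.pair_mem haK hbK) (h.subM hr), a, haK, b, hbK,
      r, h.subM hr, rfl, h2⟩, h1⟩)
  have hdef1 : Dfn {X | X ∈ C} K fun w : Fin 1 → ZFSet.{0} => ∃ a ∈ K, ∃ b ∈ K, ∃ r ∈ K,
      w 0 = pair (pair a b) r ∧ D1 K Le r a b := by
    apply Dfn.ex
    apply Dfn.ex
    apply Dfn.ex
    apply Dfn.and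
    · exact Dfn.eq (DfnF.proj 3) (hB.pair' (hB.pair' (DfnF.proj 2) (DfnF.proj 1)) (DfnF.proj 0))
    · exact Dfn.comp3 (Q := fun r a b => D1 K Le r a b) (dfn_D1 h) (DfnF.proj 0) (DfnF.proj 2)
          (DfnF.proj 1)
  have hdef0 : Dfn {X | X ∈ C} K fun w : Fin 1 → ZFSet.{0} => ∃ a ∈ K, ∃ b ∈ K, ∃ r ∈ K,
      w 0 = pair (pair a b) r ∧ D0 K Le r a b := by
    apply Dfn.ex
    apply Dfn.ex
    apply Dfn.ex
    apply Dfn.and
    · exact Dfn.eq (DfnF.proj 3) (hB.pair' (hB.pair' (DfnF.proj 2) (DfnF.proj 1)) (DfnF.proj 0))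
    · exact Dfn.comp3 (Q := fun r a b => D0 K Le r a b) (dfn_D0 h) (DfnF.proj 0) (DfnF.proj 2)
          (DfnF.proj 1)
  set w := ZFSet.sep (fun z => ∃ a ∈ K, ∃ b ∈ K, ∃ r ∈ K,
      z = pair (pair a b) r ∧ D1 K Le r a b) d with hwdef
  set w' := ZFSet.sep (fun z => ∃ a ∈ K, ∃ b ∈ K, ∃ r ∈ K,
      z = pair (pair a b) r ∧ D0 K Le r a b) d with hwdef'
  have hw : w ∈ K := h.sm.sep_mem (Q := fun z => ∃ a ∈ K, ∃ b ∈ K, ∃ r ∈ K,
      z = pair (pair a b) r ∧ D1 K Le r a b) hdef1 hd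
  have hw' : w' ∈ K := h.sm.sep_mem (Q := fun z => ∃ a ∈ K, ∃ b ∈ K, ∃ r ∈ K,
      z = pair (pair a b) r ∧ D0 K Le r a b) hdef0 hd
  have hw1 : ∀ a b r, pair (pair a b) r ∈ w → D1 K Le r a b ∧ a ∈ M ∧ b ∈ M := by
    intro a b r h1
    obtain ⟨-, a', ha', b', hb', r', hr', h2, h3⟩ := ZFSet.mem_sep.1 h1
    obtain ⟨h4, rfl⟩ := ZFSet.pair_inj.1 h2
    obtain ⟨rfl, rfl⟩ := ZFSet.pair_inj.1 h4
    exact ⟨h3, ha', hb'⟩
  have hw0 : ∀ a b r, pair (pair a b) r ∈ w' → D0 K Le r a b ∧ a ∈ M ∧ b ∈ M := by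
    intro a b r h1
    obtain ⟨-, a', ha', b', hb', r', hr', h2, h3⟩ := ZFSet.mem_sep.1 h1
    obtain ⟨h4, rfl⟩ := ZFSet.pair_inj.1 h2
    obtain ⟨rfl, rfl⟩ := ZFSet.pair_inj.1 h4
    exact ⟨h3, ha', hb'⟩
  have hpre' : ∀ a ∈ A, ∀ b ∈ B, ∀ s ∈ K, pair s q ∈ Le → ∃ r ∈ K, (pair (pair a b) r ∈ w ∨
      pair (pair a b) r ∈ w') ∧ ∃ t ∈ K, pair t s ∈ Le ∧ pair t r ∈ Le := by
    intro a ha b hb s hs hsq
    obtain ⟨r, hr, h1, t, ht, h2, h3⟩ := hpre (pair a b) (ZFSet.pair_mem_prod.2 ⟨ha, hb⟩) s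
      (h.leP hsq).1 hsq
    obtain ⟨-, a', ha', b', hb', r', hr', h4, h5⟩ := ZFSet.mem_sep.1 (hdD h1)
    refine ⟨r, h.subM hr, ?_, t, h.subM ht, h2, h3⟩
    rcases h5 with h5 | h5
    · exact Or.inl (ZFSet.mem_sep.2 ⟨h1, a', ha', b', hb', r', hr', h4, h5⟩)
    · exact Or.inr (ZFSet.mem_sep.2 ⟨h1, a', ha', b', hb', r', hr', h4, h5⟩)
  -- the semantic correctness
  have hsnd : ∀ G, IsGen C P Le G → q ∈ G → ∀ a ∈ A, ∀ b ∈ B,
      (∃ r ∈ G, pair (pair a b) r ∈ w ∨ pair (pair a b) r ∈ w') ∧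
      (∀ r ∈ G, pair (pair a b) r ∈ w → ev G a = ev G b) ∧
      (∀ r ∈ G, pair (pair a b) r ∈ w' → ev G a ≠ ev G b) := by
    intro G hG hqG a ha b hb
    have haK := hZ.trans _ hA _ ha
    have hbK := hZ.trans _ hBK _ hb
    refine ⟨?_, fun r hr h1 => ?_, fun r hr h1 => ?_⟩
    · obtain ⟨t, ht, r, hr, h1, h2⟩ := h.meet hG (Q := fun t => ∃ r ∈ {x | x ∈ M},
        (pair (pair a b) r ∈ w ∨ pair (pair a b) r ∈ w') ∧ pair t r ∈ Le) (by
        (repeat' first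
            | exact DfnF.proj _
            | exact h.sm.const (by assumption)
            | apply Dfn.not | apply Dfn.and | apply Dfn.or | apply Dfn.imp | apply Dfn.iff
            | apply Dfn.ex | apply Dfn.all | apply hB.bex | apply hB.ball | apply h.le'
            | apply Dfn.eq | apply Dfn.mem | apply hB.pair')) hqG (by
        intro s hs hsq
        obtain ⟨r, hr, h1, t, ht, h2, h3⟩ := hpre' a ha b hb s (h.subM hs) hsq
        exact ⟨t, (h.leP h2).1, h2, r, hr, h1, h3⟩)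
      exact ⟨r, h.up hG ht h2, h1⟩
    · exact D1_sound h hG haK hbK (hw1 a b r h1).1 hr
    · exact D0_sound h hG haK hbK (hw0 a b r h1).1 hr
  have hcl : ∀ x ∈ A, ∀ a ∈ K, ∀ v ∈ K, pair a v ∈ x → a ∈ A := fun z hz a ha v _ hav =>
    hinA a ha ((rank_fst hav).trans (hAr z hz))
  have hcl' : ∀ x ∈ B, ∀ a ∈ K, ∀ v ∈ K, pair a v ∈ x → a ∈ B := fun z hz a ha v _ hav =>
    hinB a ha ((rank_fst hav).trans (hBr z hz))
  have hsem : ∀ x' y', x' ∈ K → y' ∈ K → (∀ a ∈ K, ∀ v ∈ K, pair a v ∈ x' → a ∈ A) →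
      (∀ b ∈ K, ∀ v ∈ K, pair b v ∈ y' → b ∈ B) → ∀ G, IsGen C P Le G → q ∈ G → ∀ s ∈ G,
      (T1 K Le w x' y' s → ev G x' = ev G y') ∧ (T0 K Le w x' y' s → ev G x' ≠ ev G y') := by
    intro x' y' hx' hy' h1 h2 G hG hqG s hs
    refine sem h hG hx' hy' hw (w' := w') ?_ hs
    intro a v hav b u hbu
    have haK := (hZ.of_pair_mem (hZ.trans _ hx' _ hav))
    have hbK := (hZ.of_pair_mem (hZ.trans _ hy' _ hbu))
    exact hsnd G hG hqG a (h1 a haK.1 v haK.2 hav) b (h2 b hbK.1 u hbK.2 hbu)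
  have hSys : Sys K Le q A B w w' := by
    refine ⟨hcl, hcl', hpre', ?_, ?_⟩
    · intro a ha b hb r hr h1 s hs hsq hsr
      have haK := hZ.trans _ hA _ ha
      have hbK := hZ.trans _ hBK _ hb
      rcases dicho h w a b (h.leP hsq).1 with h2 | ⟨t, ht, h2, h3⟩
      · exact h2
      · obtain ⟨G, hG, htG⟩ := h.gen (h.leP h2).1
        have hsG := h.up hG htG h2
        exact absurd (D1_sound h hG haK hbK (hw1 a b r h1).1 (h.up hG hsG hsr))
          ((hsem a b haK hbK (hcl a ha) (hcl' b hb) G hG (h.up hG hsG hsq) t htG).2 h3)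
    · intro a ha b hb r hr h1 s hs hsq hsr
      have haK := hZ.trans _ hA _ ha
      have hbK := hZ.trans _ hBK _ hb
      rcases dicho h w a b (h.leP hsq).1 with h2 | h2
      · obtain ⟨G, hG, hsG⟩ := h.gen (h.leP hsq).1
        exact absurd ((hsem a b haK hbK (hcl a ha) (hcl' b hb) G hG (h.up hG hsG hsq) s hsG).1 h2)
          (D0_sound h hG haK hbK (hw0 a b r h1).1 (h.up hG hsG hsr))
      · exact h2
  have hxA : ∀ a ∈ K, ∀ v ∈ K, pair a v ∈ x → a ∈ A := fun a ha v _ hav =>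
    hinA a ha (rank_fst hav)
  have hyB : ∀ a ∈ K, ∀ v ∈ K, pair a v ∈ y → a ∈ B := fun a ha v _ hav =>
    hinB a ha (rank_fst hav)
  rcases dicho h w x y hq with h1 | ⟨s, hs, h1, h2⟩
  · exact ⟨q, hq, hqp, Or.inl ⟨A, hA, B, hBK, w, hw, w', hw', hSys, hxA, hyB, h1⟩⟩
  · exact ⟨s, (h.leP h1).1, h.le_trans h1 hqp, Or.inr ⟨A, hA, B, hBK, w, hw, w', hw',
      Sys.mono h hSys h1, hxA, hyB, h2⟩⟩

/-- In a generic filter there is a condition that decides the equality. -/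
theorem exists_dec_G (hP : Pretame M C P Le) {x y G : ZFSet.{0}} (hx : x ∈ M) (hy : y ∈ M)
    (hG : IsGen C P Le G) {p : ZFSet.{0}} (hp : p ∈ G) :
    ∃ q ∈ G, pair q p ∈ Le ∧ (D1 {x | x ∈ M} Le q x y ∨ D0 {x | x ∈ M} Le q x y) := by
  have hx' : x ∈ {x | x ∈ M} := hx
  have hy' : y ∈ {x | x ∈ M} := hy
  have hp' : p ∈ {x | x ∈ M} := h.subM (hG.sub hp)
  obtain ⟨q, hq, h1, h2⟩ := h.meet hG (Q := fun q => pair q p ∈ Le ∧
      (D1 {x | x ∈ M} Le q x y ∨ D0 {x | x ∈ M} Le q x y)) (by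
    refine (h.le' (DfnF.proj 0) (h.sm.const hp')).and (Dfn.or ?_ ?_)
    · exact Dfn.comp3 (Q := fun r a b => D1 {x | x ∈ M} Le r a b) (dfn_D1 h) (DfnF.proj 0)
        (h.sm.const hx') (h.sm.const hy')
    · exact Dfn.comp3 (Q := fun r a b => D0 {x | x ∈ M} Le r a b) (dfn_D0 h) (DfnF.proj 0)
        (h.sm.const hx') (h.sm.const hy')) hp (by
    intro q hq hqp
    obtain ⟨r, hr, h1, h2⟩ := exists_dec h hP x hx y hy q hq
    exact ⟨r, hr, h1, h.le_trans h1 hqp, h2⟩)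
  exact ⟨q, hq, h1, h2⟩

/-- The forcing theorem for equality. -/
theorem good_equal (hP : Pretame M C P Le) :
    Good M C P Le 2 fun v G => ev G (v 0) = ev G (v 1) := by
  have key : ∀ x ∈ M, ∀ y ∈ M, ∀ p ∈ P, Fo M C P Le (fun G => ev G x = ev G y) p ↔
      ∀ q ∈ {x | x ∈ M}, pair q p ∈ Le → ¬ D0 {x | x ∈ M} Le q x y := by
    intro x hx y hy p hp
    constructor
    · intro h1 q hq hqp h2
      obtain ⟨G, hG, hqG⟩ := h.gen (h.leP hqp).1
      exact D0_sound h hG hx hy h2 hqG (h1 G hG (h.up hG hqG hqp))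
    · intro h1 G hG hpG
      obtain ⟨q, hq, h2, h3⟩ := exists_dec_G h hP hx hy hG hpG
      rcases h3 with h3 | h3
      · exact D1_sound h hG hx hy h3 hq
      · exact absurd h3 (h1 q (h.subM (hG.sub hq)) h2)
  constructor
  · have h1 : Dfn {X | X ∈ C} {x | x ∈ M} fun w : Fin 3 → ZFSet.{0} =>
        (∀ i : Fin 2, IsName P (w i.succ)) ∧ w 0 ∈ P ∧
          ∀ q ∈ {x | x ∈ M}, pair q (w 0) ∈ Le → ¬ D0 {x | x ∈ M} Le q (w 1) (w 2) := by
      refine (h.dNs 2).and ((h.dP.comp ![0]).and ?_)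
      apply Dfn.all
      refine Dfn.imp (h.le' (DfnF.proj 0) (DfnF.proj 1)) (Dfn.not ?_)
      exact Dfn.comp3 (Q := fun r a b => D0 {x | x ∈ M} Le r a b) (dfn_D0 h) (DfnF.proj 0)
        (DfnF.proj 2) (DfnF.proj 3)
    refine h1.congr fun w hw => and_congr_right fun h2 => and_congr_right fun h3 => ?_
    exact (key (w 1) (hw 1) (w 2) (hw 2) (w 0) h3).symm
  · intro v hv G hG h1
    obtain ⟨p, hp⟩ := hG.nonempty
    obtain ⟨q, hq, h2, h3⟩ := exists_dec_G h hP (hv 0).1 (hv 1).1 hG hp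
    rcases h3 with h3 | h3
    · exact ⟨q, hq, fun G' hG' hq' => D1_sound h hG' (hv 0).1 (hv 1).1 h3 hq'⟩
    · exact absurd h1 (D0_sound h hG (hv 0).1 (hv 1).1 h3 hq)

/-- Pretame class forcings satisfy the forcing theorem. -/
theorem forcingThm_of_pretame (hP : Pretame M C P Le) : ForcingThm M C P Le :=
  forcingThm_of_eq h (good_equal h hP)

end

end Pool.Agent.H635.PT
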