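import Pool.Agent.H635.PT.PR

/-!
# Class forcings that preserve separation are pretame
-/

set_option autoImplicit false
set_option linter.unreachableTactic false
set_option linter.unusedTactic false
set_option linter.unusedSectionVars false
set_option linter.unusedVariables false

namespace Pool.Agent.H635.PT

open Pool.Agent.W868 Pool.Agent.W868.GM Pool.Agent.Y588 Pool.Agent.R597
open ZFSet (pair)

/-! ### Elements of least rank -/

theorem mem_wt {K : Set ZFSet.{0}} (hK : IsZF K) {Q : ZFSet.{0} → Prop} {a : ZFSet.{0}} :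
    a ∈ wt K Q ↔ a ∈ K ∧ Q a ∧ ∀ b ∈ K, Q b → a.rank ≤ b.rank := by
  constructor
  · intro ha
    obtain ⟨haK, hQ⟩ := wt_spec ha
    refine ⟨haK, hQ, fun b hb hQb => ?_⟩
    have h1 := rank_Vh (ZFSet.mem_sep.1 ha).1
    have h2 : lo K (fun ξ => ∃ w ∈ K, rk w = ξ ∧ Q w) ⊆ rk b :=
      lo_subset (rk_mem hK hb) (isOrdinal_rk b) ⟨b, hb, rfl, hQb⟩
    have h3 : (lo K (fun ξ => ∃ w ∈ K, rk w = ξ ∧ Q w)).rank ≤ b.rank := by
      rw [← rank_rk b]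
      exact ZFSet.rank_mono h2
    have h4 : (sc (lo K (fun ξ => ∃ w ∈ K, rk w = ξ ∧ Q w))).rank ≤
        Order.succ (lo K (fun ξ => ∃ w ∈ K, rk w = ξ ∧ Q w)).rank := by
      unfold sc
      rw [ZFSet.rank_insert]
      exact max_le le_rfl (Order.le_succ _)
    exact Order.lt_succ_iff.1 (lt_of_lt_of_le (lt_of_lt_of_le h1 h4) (Order.succ_le_succ h3))
  · rintro ⟨haK, hQ, hmin⟩
    obtain ⟨-, -, w', hw', h1, h2⟩ := lo_spec (M := K) (P := fun ξ => ∃ w ∈ K, rk w = ξ ∧ Q w)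
      ⟨rk a, rk_mem hK haK, isOrdinal_rk a, a, haK, rfl, hQ⟩
    refine ZFSet.mem_sep.2 ⟨mem_Vh_of_rk hK _ haK ?_, hQ⟩
    rw [← h1]
    have h3 := hmin w' hw' h2
    rcases lt_or_eq_of_le h3 with h4 | h4
    · exact ZFSet.mem_insert_iff.2 (Or.inr (Ordinal.toZFSet_mem_toZFSet_iff.2 h4))
    · have h5 : rk a = rk w' := by
        unfold rk
        rw [h4]
      rw [h5]
      exact ZFSet.mem_insert _ _

/-- The class `W` is a strict well-order of `M`. -/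
structure WO (M C W : ZFSet.{0}) : Prop where
  mem : W ∈ C
  irrefl : ∀ x ∈ M, pair x x ∉ W
  trans : ∀ x ∈ M, ∀ y ∈ M, ∀ z ∈ M, pair x y ∈ W → pair y z ∈ W → pair x z ∈ W
  total : ∀ x ∈ M, ∀ y ∈ M, pair x y ∈ W ∨ x = y ∨ pair y x ∈ W
  least : ∀ X ∈ C, (∃ x, x ∈ X) → ∃ x ∈ X, ∀ y ∈ X, pair y x ∉ W

open Classical in
/-- The `W`-least element. -/
noncomputable def pk (W x : ZFSet.{0}) : ZFSet.{0} :=
  if h : ∃ y ∈ x, ∀ z ∈ x, pair z y ∉ W then h.choose else ∅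

section

variable {M C P Le W : ZFSet.{0}} (h : CX M C P Le) (hW : WO M C W) {n : ℕ}

include h hW

theorem pk_spec {x : ZFSet.{0}} (hx : x ∈ M) (hne : ∃ y, y ∈ x) :
    pk W x ∈ x ∧ ∀ z ∈ x, pair z (pk W x) ∉ W := by
  have h1 : ∃ y ∈ x, ∀ z ∈ x, pair z y ∉ W := hW.least x (h.sm.sub hx) hne
  rw [pk, dif_pos h1]
  exact h1.choose_spec

theorem pk_unique {x y : ZFSet.{0}} (hx : x ∈ M) (hy : y ∈ x) (hmin : ∀ z ∈ x, pair z y ∉ W) :
    y = pk W x := by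
  obtain ⟨h1, h2⟩ := pk_spec h hW hx ⟨y, hy⟩
  rcases hW.total y (h.zf.trans _ hx _ hy) _ (h.zf.trans _ hx _ h1) with h3 | h3 | h3
  · exact absurd h3 (h2 y hy)
  · exact h3
  · exact absurd h3 (hmin _ h1)

theorem pk' {F : (Fin n → ZFSet.{0}) → ZFSet.{0}} (hF : DfnF {X | X ∈ C} {x | x ∈ M} F) :
    DfnF {X | X ∈ C} {x | x ∈ M} fun v => pk W (F v) := by
  have hB := h.zf.base
  have h0 := h.zf.empty_mem
  have hWd : ∀ {m : ℕ} {F G : (Fin m → ZFSet.{0}) → ZFSet.{0}},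
      DfnF {X | X ∈ C} {x | x ∈ M} F → DfnF {X | X ∈ C} {x | x ∈ M} G →
      Dfn {X | X ∈ C} {x | x ∈ M} fun v => pair (F v) (G v) ∈ W := fun hF hG =>
    Dfn.comp1 (Q := fun x => x ∈ W) (h.dcls hW.mem) (hB.pair' hF hG)
  refine DfnF.comp1 (f := pk W) ?_ hF
  refine DfnF.of_unique (R := fun y v => (y ∈ v 0 ∧ ∀ z ∈ v 0, pair z y ∉ W) ∨
    (y = ∅ ∧ ¬ ∃ z ∈ v 0, True)) ?_ ?_
  · apply Dfn.or
    · apply Dfn.and
      · exact Dfn.mem (DfnF.proj 0) (DfnF.proj 1)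
      · apply hB.ball (DfnF.proj 1)
        exact (hWd (DfnF.proj 0) (DfnF.proj 1)).not
    · apply Dfn.and
      · exact Dfn.eq (DfnF.proj 0) (h.sm.const h0)
      · apply Dfn.not
        apply hB.bex (DfnF.proj 1)
        exact Dfn.tt
  · intro v hv
    by_cases hne : ∃ z ∈ v 0, True
    · have hne' : ∃ z, z ∈ v 0 := ⟨hne.choose, hne.choose_spec.1⟩
      obtain ⟨h1, h2⟩ := pk_spec h hW (hv 0) hne'
      refine ⟨h.zf.trans _ (hv 0) _ h1, fun y hy => ?_⟩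
      constructor
      · rintro (⟨h3, h4⟩ | ⟨-, h3⟩)
        · exact pk_unique h hW (hv 0) h3 h4
        · exact absurd hne h3
      · rintro rfl
        exact Or.inl ⟨h1, h2⟩
    · have h1 : pk W (v 0) = ∅ := by
        rw [pk, dif_neg]
        rintro ⟨y, hy, -⟩
        exact hne ⟨y, hy, trivial⟩
      rw [h1]
      refine ⟨h0, fun y hy => ?_⟩
      constructor
      · rintro (⟨h3, h4⟩ | ⟨h3, -⟩)
        · exact absurd ⟨y, h3, trivial⟩ hne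
        · exact h3
      · rintro rfl
        exact Or.inr ⟨rfl, hne⟩

end

/-! ### The canonical elements of the classes `D i` -/

/-- The class of the elements of `D i` that are compatible with `r`. -/
def Cp (K : Set ZFSet.{0}) (Le D i r d : ZFSet.{0}) : Prop :=
  pair i d ∈ D ∧ ∃ t ∈ K, pair t d ∈ Le ∧ pair t r ∈ Le

/-- The first element of `D i` that is compatible with `r`. -/
noncomputable def ee (K : Set ZFSet.{0}) (Le W D i r : ZFSet.{0}) : ZFSet.{0} :=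
  pk W (wt K fun d => Cp K Le D i r d)

/-- The condition `r` forces that `d` is the first element of `D i` in the generic filter. -/
def EE (K : Set ZFSet.{0}) (Le W D i r d : ZFSet.{0}) : Prop :=
  d = ee K Le W D i r ∧ pair r d ∈ Le ∧ pair i d ∈ D

/-- No set in the model is a subset of `D i` that is predense below `q`. -/
def Bad (K : Set ZFSet.{0}) (Le D i q : ZFSet.{0}) : Prop :=
  ∀ e ∈ K, (∀ x ∈ e, pair i x ∈ D) → ∃ r ∈ K, pair r q ∈ Le ∧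
    ∀ x ∈ e, ¬ ∃ t ∈ K, pair t r ∈ Le ∧ pair t x ∈ Le

section

variable {M C P Le W D : ZFSet.{0}} (h : CX M C P Le) (hW : WO M C W) (hD : D ∈ C) {n : ℕ}

include h hW hD

theorem D' {F G : (Fin n → ZFSet.{0}) → ZFSet.{0}}
    (hF : DfnF {X | X ∈ C} {x | x ∈ M} F) (hG : DfnF {X | X ∈ C} {x | x ∈ M} G) :
    Dfn {X | X ∈ C} {x | x ∈ M} fun v => pair (F v) (G v) ∈ D :=
  Dfn.comp1 (Q := fun x => x ∈ D) (h.dcls hD) (h.zf.base.pair' hF hG)

theorem Cp' {F G H : (Fin n → ZFSet.{0}) → ZFSet.{0}}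
    (hF : DfnF {X | X ∈ C} {x | x ∈ M} F) (hG : DfnF {X | X ∈ C} {x | x ∈ M} G)
    (hH : DfnF {X | X ∈ C} {x | x ∈ M} H) :
    Dfn {X | X ∈ C} {x | x ∈ M} fun v => Cp {x | x ∈ M} Le D (F v) (G v) (H v) := by
  refine Dfn.comp3 (Q := fun i r d => Cp {x | x ∈ M} Le D i r d) ?_ hF hG hH
  unfold Cp
  refine (D' h hW hD (DfnF.proj 0) (DfnF.proj 2)).and ?_
  apply Dfn.ex
  exact (h.le' (DfnF.proj 0) (DfnF.proj 3)).and (h.le' (DfnF.proj 0) (DfnF.proj 2))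

theorem ee' {F G : (Fin n → ZFSet.{0}) → ZFSet.{0}}
    (hF : DfnF {X | X ∈ C} {x | x ∈ M} F) (hG : DfnF {X | X ∈ C} {x | x ∈ M} G) :
    DfnF {X | X ∈ C} {x | x ∈ M} fun v => ee {x | x ∈ M} Le W D (F v) (G v) := by
  refine DfnF.comp2 (f := fun i r => ee {x | x ∈ M} Le W D i r) ?_ hF hG
  unfold ee
  refine pk' h hW ?_
  refine h.sm.wt' (Q := fun d v => Cp {x | x ∈ M} Le D (v 0) (v 1) d) ?_
  exact Cp' h hW hD (DfnF.proj 1) (DfnF.proj 2) (DfnF.proj 0)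

theorem EE' {F G H : (Fin n → ZFSet.{0}) → ZFSet.{0}}
    (hF : DfnF {X | X ∈ C} {x | x ∈ M} F) (hG : DfnF {X | X ∈ C} {x | x ∈ M} G)
    (hH : DfnF {X | X ∈ C} {x | x ∈ M} H) :
    Dfn {X | X ∈ C} {x | x ∈ M} fun v => EE {x | x ∈ M} Le W D (F v) (G v) (H v) := by
  refine Dfn.comp3 (Q := fun i r d => EE {x | x ∈ M} Le W D i r d) ?_ hF hG hH
  unfold EE
  refine (Dfn.eq (DfnF.proj 2) (ee' h hW hD (DfnF.proj 0) (DfnF.proj 1))).and ?_
  exact (h.le' (DfnF.proj 1) (DfnF.proj 2)).and (D' h hW hD (DfnF.proj 0) (DfnF.proj 2))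

theorem Bad' {F G : (Fin n → ZFSet.{0}) → ZFSet.{0}}
    (hF : DfnF {X | X ∈ C} {x | x ∈ M} F) (hG : DfnF {X | X ∈ C} {x | x ∈ M} G) :
    Dfn {X | X ∈ C} {x | x ∈ M} fun v => Bad {x | x ∈ M} Le D (F v) (G v) := by
  have hB := h.zf.base
  refine Dfn.comp2 (Q := fun i r => Bad {x | x ∈ M} Le D i r) ?_ hF hG
  unfold Bad
  apply Dfn.all
  apply Dfn.imp
  · apply hB.ball (DfnF.proj 0)
    exact D' h hW hD (DfnF.proj 2) (DfnF.proj 0)
  · apply Dfn.ex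
    apply Dfn.and
    · exact h.le' (DfnF.proj 0) (DfnF.proj 3)
    · apply hB.ball (DfnF.proj 1)
      apply Dfn.not
      apply Dfn.ex
      exact (h.le' (DfnF.proj 0) (DfnF.proj 2)).and (h.le' (DfnF.proj 0) (DfnF.proj 1))

theorem mm_mem {i r : ZFSet.{0}} (hi : i ∈ M) (hr : r ∈ M) :
    wt {x | x ∈ M} (fun d => Cp {x | x ∈ M} Le D i r d) ∈ M := by
  have hi' : i ∈ {x | x ∈ M} := hi
  have hr' : r ∈ {x | x ∈ M} := hr
  have h1 : DfnF {X | X ∈ C} {x | x ∈ M} fun v : Fin 1 → ZFSet.{0} =>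
      wt {x | x ∈ M} (fun d => Cp {x | x ∈ M} Le D i r d) := by
    refine h.sm.wt' (Q := fun d v => Cp {x | x ∈ M} Le D i r d) ?_
    exact Cp' h hW hD (h.sm.const hi') (h.sm.const hr') (DfnF.proj 0)
  exact h1.1 (fun _ => i) fun _ => hi

/-- The first element of `D i` that is compatible with `r`. -/
theorem ee_spec {i r : ZFSet.{0}} (hi : i ∈ M) (hr : r ∈ M)
    (hne : ∃ d ∈ M, Cp {x | x ∈ M} Le D i r d) :
    ee {x | x ∈ M} Le W D i r ∈ M ∧ Cp {x | x ∈ M} Le D i r (ee {x | x ∈ M} Le W D i r) ∧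
      (∀ d ∈ M, Cp {x | x ∈ M} Le D i r d → (ee {x | x ∈ M} Le W D i r).rank ≤ d.rank) ∧
      (∀ d ∈ M, Cp {x | x ∈ M} Le D i r d → d.rank ≤ (ee {x | x ∈ M} Le W D i r).rank →
        pair d (ee {x | x ∈ M} Le W D i r) ∉ W) := by
  obtain ⟨w, hw⟩ := wt_ne h.zf hne
  obtain ⟨h1, h2⟩ := pk_spec h hW (mm_mem h hW hD hi hr) ⟨w, hw⟩
  obtain ⟨h3, h4, h5⟩ := (mem_wt h.zf).1 h1
  refine ⟨h3, h4, h5, fun d hd hc hrk => h2 d ((mem_wt h.zf).2 ⟨hd, hc, fun b hb hb' => ?_⟩)⟩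
  exact hrk.trans (h5 b hb hb')

/-- A condition that determines the first element. -/
theorem exists_EE {i r : ZFSet.{0}} (hi : i ∈ M) (hr : r ∈ M)
    (hne : ∃ d ∈ M, Cp {x | x ∈ M} Le D i r d) :
    ∃ t, pair t r ∈ Le ∧ EE {x | x ∈ M} Le W D i t (ee {x | x ∈ M} Le W D i r) := by
  obtain ⟨h1, ⟨h2, t, ht, h3, h4⟩, h5, h6⟩ := ee_spec h hW hD hi hr hne
  refine ⟨t, h4, ?_, h3, h2⟩
  have hsub : ∀ d, Cp {x | x ∈ M} Le D i t d → Cp {x | x ∈ M} Le D i r d := by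
    rintro d ⟨h7, s, hs, h8, h9⟩
    exact ⟨h7, s, hs, h8, h.le_trans h9 h4⟩
  have hself : Cp {x | x ∈ M} Le D i t (ee {x | x ∈ M} Le W D i r) :=
    ⟨h2, t, ht, h3, h.cf.refl t (h.leP h4).1⟩
  refine pk_unique h hW (mm_mem h hW hD hi ht) ((mem_wt h.zf).2 ⟨h1, hself, fun b hb hb' =>
    h5 b hb (hsub b hb')⟩) fun z hz => ?_
  obtain ⟨h7, h8, h9⟩ := (mem_wt h.zf).1 hz
  exact h6 z h7 (hsub z h8) (h9 _ h1 hself)

/-- Compatible conditions determine the same element. -/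
theorem EE_unique {i r r' d d' : ZFSet.{0}} (hi : i ∈ M)
    (hr : EE {x | x ∈ M} Le W D i r d) (hr' : EE {x | x ∈ M} Le W D i r' d')
    (hc : ∃ t, pair t r ∈ Le ∧ pair t r' ∈ Le) : d = d' := by
  obtain ⟨t, ht, ht'⟩ := hc
  obtain ⟨h1, h2, h3⟩ := hr
  obtain ⟨h1', h2', h3'⟩ := hr'
  have htM := (h.leM ht).1
  have hc1 : Cp {x | x ∈ M} Le D i r d := ⟨h3, t, htM, h.le_trans ht h2, ht⟩
  have hc2 : Cp {x | x ∈ M} Le D i r d' := ⟨h3', t, htM, h.le_trans ht' h2', ht⟩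
  have hc3 : Cp {x | x ∈ M} Le D i r' d := ⟨h3, t, htM, h.le_trans ht h2, ht'⟩
  have hc4 : Cp {x | x ∈ M} Le D i r' d' := ⟨h3', t, htM, h.le_trans ht' h2', ht'⟩
  have hdM : d ∈ M := (h.leM h2).2
  have hdM' : d' ∈ M := (h.leM h2').2
  obtain ⟨-, -, h5, h6⟩ := ee_spec h hW hD hi (h.leM ht).2 ⟨d, hdM, hc1⟩
  obtain ⟨-, -, h5', h6'⟩ := ee_spec h hW hD hi (h.leM ht').2 ⟨d, hdM, hc3⟩
  rw [← h1] at h5 h6
  rw [← h1'] at h5' h6'
  rcases hW.total d hdM d' hdM' with h7 | h7 | h7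
  · exact absurd h7 (h6' d hdM hc3 (h5 d' hdM' hc2))
  · exact h7
  · exact absurd h7 (h6 d' hdM' hc2 (h5' d hdM hc3))

end

end Pool.Agent.H635.PT
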