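import Pool.Agent.H635.PT.FT

/-!
# Systems of conditions that decide the equality of names
-/

set_option autoImplicit false
set_option linter.unreachableTactic false
set_option linter.unusedTactic false
set_option linter.unusedSectionVars false
set_option linter.unusedVariables false

namespace Pool.Agent.H635.PT

open Pool.Agent.W868 Pool.Agent.W868.GM Pool.Agent.Y588 Pool.Agent.R597
open ZFSet (pair)

/-- The set `w` of pairs `((a, b), r)`, where `r` forces that the values of `a` and `b` are equal,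
witnesses that `s` forces the equality of the values of `x` and `y`. -/
def T1 (K : Set ZFSet.{0}) (Le w x y s : ZFSet.{0}) : Prop :=
  (∀ a ∈ K, ∀ v ∈ K, pair a v ∈ x → ∀ t ∈ K, pair t s ∈ Le → pair t v ∈ Le →
    ∃ t' ∈ K, pair t' t ∈ Le ∧ ∃ b ∈ K, ∃ u ∈ K, pair b u ∈ y ∧ pair t' u ∈ Le ∧
      ∃ r ∈ K, pair (pair a b) r ∈ w ∧ pair t' r ∈ Le) ∧
  (∀ b ∈ K, ∀ u ∈ K, pair b u ∈ y → ∀ t ∈ K, pair t s ∈ Le → pair t u ∈ Le →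
    ∃ t' ∈ K, pair t' t ∈ Le ∧ ∃ a ∈ K, ∃ v ∈ K, pair a v ∈ x ∧ pair t' v ∈ Le ∧
      ∃ r ∈ K, pair (pair a b) r ∈ w ∧ pair t' r ∈ Le)

/-- The set `w` witnesses that `s` forces that the values of `x` and `y` are not equal. -/
def T0 (K : Set ZFSet.{0}) (Le w x y s : ZFSet.{0}) : Prop :=
  (∃ a ∈ K, ∃ v ∈ K, pair a v ∈ x ∧ pair s v ∈ Le ∧ ∀ b ∈ K, ∀ u ∈ K, pair b u ∈ y →
    ∀ r ∈ K, pair (pair a b) r ∈ w → ¬ ∃ t ∈ K, pair t s ∈ Le ∧ pair t u ∈ Le ∧ pair t r ∈ Le) ∨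
  (∃ b ∈ K, ∃ u ∈ K, pair b u ∈ y ∧ pair s u ∈ Le ∧ ∀ a ∈ K, ∀ v ∈ K, pair a v ∈ x →
    ∀ r ∈ K, pair (pair a b) r ∈ w → ¬ ∃ t ∈ K, pair t s ∈ Le ∧ pair t v ∈ Le ∧ pair t r ∈ Le)

/-- Below `q`, the sets `w` and `w'` decide the equality of the elements of `A` and `B`. -/
def Sys (K : Set ZFSet.{0}) (Le q A B w w' : ZFSet.{0}) : Prop :=
  (∀ x ∈ A, ∀ a ∈ K, ∀ v ∈ K, pair a v ∈ x → a ∈ A) ∧
  (∀ y ∈ B, ∀ b ∈ K, ∀ u ∈ K, pair b u ∈ y → b ∈ B) ∧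
  (∀ x ∈ A, ∀ y ∈ B, ∀ s ∈ K, pair s q ∈ Le → ∃ r ∈ K, (pair (pair x y) r ∈ w ∨
    pair (pair x y) r ∈ w') ∧ ∃ t ∈ K, pair t s ∈ Le ∧ pair t r ∈ Le) ∧
  (∀ x ∈ A, ∀ y ∈ B, ∀ r ∈ K, pair (pair x y) r ∈ w → ∀ s ∈ K, pair s q ∈ Le →
    pair s r ∈ Le → T1 K Le w x y s) ∧
  (∀ x ∈ A, ∀ y ∈ B, ∀ r ∈ K, pair (pair x y) r ∈ w' → ∀ s ∈ K, pair s q ∈ Le →
    pair s r ∈ Le → ∃ t ∈ K, pair t s ∈ Le ∧ T0 K Le w x y t)

/-- There is a system that witnesses that `q` forces the equality of the values. -/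
def D1 (K : Set ZFSet.{0}) (Le q x y : ZFSet.{0}) : Prop :=
  ∃ A ∈ K, ∃ B ∈ K, ∃ w ∈ K, ∃ w' ∈ K, Sys K Le q A B w w' ∧
    (∀ a ∈ K, ∀ v ∈ K, pair a v ∈ x → a ∈ A) ∧ (∀ b ∈ K, ∀ u ∈ K, pair b u ∈ y → b ∈ B) ∧
    T1 K Le w x y q

/-- There is a system that witnesses that `q` forces that the values are not equal. -/
def D0 (K : Set ZFSet.{0}) (Le q x y : ZFSet.{0}) : Prop :=
  ∃ A ∈ K, ∃ B ∈ K, ∃ w ∈ K, ∃ w' ∈ K, Sys K Le q A B w w' ∧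
    (∀ a ∈ K, ∀ v ∈ K, pair a v ∈ x → a ∈ A) ∧ (∀ b ∈ K, ∀ u ∈ K, pair b u ∈ y → b ∈ B) ∧
    T0 K Le w x y q

section

variable {M C P Le : ZFSet.{0}} (h : CX M C P Le) {n : ℕ}

include h

theorem CX.leP {a b : ZFSet.{0}} (hab : pair a b ∈ Le) : a ∈ P ∧ b ∈ P :=
  ZFSet.pair_mem_prod.1 (h.cf.le_sub hab)

theorem CX.leM {a b : ZFSet.{0}} (hab : pair a b ∈ Le) :
    a ∈ {x | x ∈ M} ∧ b ∈ {x | x ∈ M} :=
  ⟨h.subM (h.leP hab).1, h.subM (h.leP hab).2⟩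

theorem CX.le_trans {a b c : ZFSet.{0}} (hab : pair a b ∈ Le) (hbc : pair b c ∈ Le) :
    pair a c ∈ Le :=
  h.cf.trans c (h.leP hbc).2 b (h.leP hbc).1 a (h.leP hab).1 hab hbc

theorem CX.le' {F G : (Fin n → ZFSet.{0}) → ZFSet.{0}}
    (hF : DfnF {X | X ∈ C} {x | x ∈ M} F) (hG : DfnF {X | X ∈ C} {x | x ∈ M} G) :
    Dfn {X | X ∈ C} {x | x ∈ M} fun v => pair (F v) (G v) ∈ Le :=
  Dfn.comp1 (Q := fun x => x ∈ Le) (h.dcls h.cf.le_mem) (h.zf.base.pair' hF hG)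

theorem CX.P' {F : (Fin n → ZFSet.{0}) → ZFSet.{0}}
    (hF : DfnF {X | X ∈ C} {x | x ∈ M} F) :
    Dfn {X | X ∈ C} {x | x ∈ M} fun v => F v ∈ P :=
  Dfn.comp1 (Q := fun x => x ∈ P) h.dP hF

theorem dfn_T1 : Dfn {X | X ∈ C} {x | x ∈ M} fun w : Fin 4 → ZFSet.{0} =>
    T1 {x | x ∈ M} Le (w 0) (w 1) (w 2) (w 3) := by
  have hB := h.zf.base
  unfold T1
  (repeat' first
      | exact DfnF.proj _
      | apply Dfn.not | apply Dfn.and | apply Dfn.or | apply Dfn.imp | apply Dfn.iff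
      | apply Dfn.ex | apply Dfn.all | apply h.le'
      | apply Dfn.eq | apply Dfn.mem | apply hB.pair')

theorem dfn_T0 : Dfn {X | X ∈ C} {x | x ∈ M} fun w : Fin 4 → ZFSet.{0} =>
    T0 {x | x ∈ M} Le (w 0) (w 1) (w 2) (w 3) := by
  have hB := h.zf.base
  unfold T0
  (repeat' first
      | exact DfnF.proj _
      | apply Dfn.not | apply Dfn.and | apply Dfn.or | apply Dfn.imp | apply Dfn.iff
      | apply Dfn.ex | apply Dfn.all | apply h.le'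
      | apply Dfn.eq | apply Dfn.mem | apply hB.pair')

theorem T1' {F₀ F₁ F₂ F₃ : (Fin n → ZFSet.{0}) → ZFSet.{0}}
    (h0 : DfnF {X | X ∈ C} {x | x ∈ M} F₀) (h1 : DfnF {X | X ∈ C} {x | x ∈ M} F₁)
    (h2 : DfnF {X | X ∈ C} {x | x ∈ M} F₂) (h3 : DfnF {X | X ∈ C} {x | x ∈ M} F₃) :
    Dfn {X | X ∈ C} {x | x ∈ M} fun v => T1 {x | x ∈ M} Le (F₀ v) (F₁ v) (F₂ v) (F₃ v) :=
  Dfn.comp4 (Q := fun a b c d => T1 {x | x ∈ M} Le a b c d) (dfn_T1 h) h0 h1 h2 h3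

theorem T0' {F₀ F₁ F₂ F₃ : (Fin n → ZFSet.{0}) → ZFSet.{0}}
    (h0 : DfnF {X | X ∈ C} {x | x ∈ M} F₀) (h1 : DfnF {X | X ∈ C} {x | x ∈ M} F₁)
    (h2 : DfnF {X | X ∈ C} {x | x ∈ M} F₂) (h3 : DfnF {X | X ∈ C} {x | x ∈ M} F₃) :
    Dfn {X | X ∈ C} {x | x ∈ M} fun v => T0 {x | x ∈ M} Le (F₀ v) (F₁ v) (F₂ v) (F₃ v) :=
  Dfn.comp4 (Q := fun a b c d => T0 {x | x ∈ M} Le a b c d) (dfn_T0 h) h0 h1 h2 h3

theorem dfn_D1 : Dfn {X | X ∈ C} {x | x ∈ M} fun w : Fin 3 → ZFSet.{0} =>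
    D1 {x | x ∈ M} Le (w 0) (w 1) (w 2) := by
  have hB := h.zf.base
  unfold D1 Sys
  (repeat' first
      | exact DfnF.proj _
      | apply Dfn.not | apply Dfn.and | apply Dfn.or | apply Dfn.imp | apply Dfn.iff
      | apply Dfn.ex | apply Dfn.all | apply hB.bex | apply hB.ball | apply h.le'
      | apply T1' h | apply T0' h
      | apply Dfn.eq | apply Dfn.mem | apply hB.pair')

theorem dfn_D0 : Dfn {X | X ∈ C} {x | x ∈ M} fun w : Fin 3 → ZFSet.{0} =>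
    D0 {x | x ∈ M} Le (w 0) (w 1) (w 2) := by
  have hB := h.zf.base
  unfold D0 Sys
  (repeat' first
      | exact DfnF.proj _
      | apply Dfn.not | apply Dfn.and | apply Dfn.or | apply Dfn.imp | apply Dfn.iff
      | apply Dfn.ex | apply Dfn.all | apply hB.bex | apply hB.ball | apply h.le'
      | apply T1' h | apply T0' h
      | apply Dfn.eq | apply Dfn.mem | apply hB.pair')

end

end Pool.Agent.H635.PT
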